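import Mathlib

/-!
# Lattice packings of polytopes with at most five vertices: statements

Notation: `V = Fin 3 → ℝ`, `e n = Pi.single n 1`.  After an affine change of coordinates a polytope
with at most five vertices is `K5 b = conv {0, e 0, e 1, e 2, b}`, where `{0, e 0, e 1, e 2}` span a
tetrahedron of the largest volume.
-/

set_option autoImplicit false

namespace Pool.Agent.H96.BP

open MeasureTheory

abbrev V := Fin 3 → ℝ

/-- `conv {0, e 0, e 1, e 2, b}` -/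
def K5 (b : V) : Set V :=
  convexHull ℝ (insert b (insert 0 (Set.range fun n : Fin 3 => (Pi.single n 1 : V))))

/-- the widths of `K` in the seven directions are at most the given numbers -/
def Wid (K : Set V) (w0 w1 w2 wS w01 w02 w12 : ℝ) : Prop :=
  ∀ p ∈ K, ∀ q ∈ K, p 0 - q 0 ≤ w0 ∧ p 1 - q 1 ≤ w1 ∧ p 2 - q 2 ≤ w2 ∧
    (p 0 + p 1 + p 2) - (q 0 + q 1 + q 2) ≤ wS ∧ (p 0 + p 1) - (q 0 + q 1) ≤ w01 ∧
    (p 0 + p 2) - (q 0 + q 2) ≤ w02 ∧ (p 1 + p 2) - (q 1 + q 2) ≤ w12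

/-- the vector `D` is long in one of the seven directions -/
def Out (w0 w1 w2 wS w01 w02 w12 : ℝ) (D : V) : Prop :=
  w0 ≤ |D 0| ∨ w1 ≤ |D 1| ∨ w2 ≤ |D 2| ∨ wS ≤ |D 0 + D 1 + D 2| ∨ w01 ≤ |D 0 + D 1| ∨
    w02 ≤ |D 0 + D 2| ∨ w12 ≤ |D 1 + D 2|

/-! ### The two families of lattices -/

noncomputable def fA (x y z : ℝ) : V :=
  ![1 / 2 + 3 / 4 * x + y / 4 - z / 4, 1 / 2 + x / 4 - y / 4 + z / 4, -(1 / 3) + x / 3 + y / 2 + z / 2]
noncomputable def gA (x y z : ℝ) : V :=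
  ![2 / 3 + x / 6 + y / 2, -(1 / 2) + x / 4 - y / 4 + z / 4, 1 / 3 - x / 6 + y / 2]
noncomputable def hA (x y z : ℝ) : V :=
  ![-1, 1 / 6 - 3 / 4 * x + y / 4 + z / 4, 2 / 3 + x / 6 - y / 2]

noncomputable def fB (r s : ℝ) : V := ![1 / 2 + r, 1 / 2 + s, -(1 / 3) - r / 3 - s / 3]
noncomputable def gB (r s : ℝ) : V := ![2 / 3 + 2 / 3 * r - s / 3, -(1 / 2), 1 / 3 - 2 / 3 * r + s / 3]
noncomputable def hB (r s : ℝ) : V := ![-1 - r, 1 / 6 - r / 3 - s / 3, 2 / 3 + 2 / 3 * r - s / 3]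

noncomputable def dA (x y z : ℝ) : ℝ :=
  49 / 108 + 7 / 18 * (x + y + z) - 73 / 432 * x ^ 2 - 3 / 16 * y ^ 2 - 3 / 16 * z ^ 2 - x * y / 24 -
    x * z / 72 + y * z / 24 + x ^ 3 / 9 - x ^ 2 * z / 36 + x * y * z / 3 - y ^ 2 * z / 8 -
    y * z ^ 2 / 8
noncomputable def dB (r s : ℝ) : ℝ :=
  49 / 108 + 7 / 18 * (r + s) - r ^ 2 / 6 - s ^ 2 / 6 + 4 / 27 * (r ^ 3 + s ^ 3) -
    2 / 9 * r * s * (r + s)

/-- every nonzero vector of the first lattice is long -/
def S_OUTA : Prop := ∀ x y z : ℝ, 0 ≤ x → 0 ≤ y → 0 ≤ z → x + y + z ≤ 1 → ∀ i j k : ℤ,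
  ¬ (i = 0 ∧ j = 0 ∧ k = 0) → Out 1 1 1 (1 + x + y + z) (1 + x) (1 + y) (1 + z)
    (fun n => (i : ℝ) * fA x y z n + (j : ℝ) * gA x y z n + (k : ℝ) * hA x y z n)

/-- every nonzero vector of the second lattice is long -/
def S_OUTB : Prop := ∀ r s : ℝ, 0 ≤ r → 0 ≤ s → r + s ≤ 1 → ∀ i j k : ℤ,
  ¬ (i = 0 ∧ j = 0 ∧ k = 0) → Out (1 + r) (1 + s) 1 1 (1 + r + s) 1 1
    (fun n => (i : ℝ) * fB r s n + (j : ℝ) * gB r s n + (k : ℝ) * hB r s n)

/-- **S_DET** (easy). The determinants of the two bases (`Matrix.det_fin_three`, `ring`), and the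
comparison with the volume. The inequalities are `Q < 7/108 * (sum)` where `Q` is the sum of the
terms of degree 2 and 3. -/
def S_DET : Prop :=
  (∀ x y z : ℝ, Matrix.det ![fA x y z, gA x y z, hA x y z] = -dA x y z) ∧
  (∀ r s : ℝ, Matrix.det ![fB r s, gB r s, hB r s] = -dB r s) ∧
  (∀ x y z : ℝ, 0 ≤ x → 0 ≤ y → 0 ≤ z → x + y + z ≤ 1 → 0 < x + y + z →
    0 < dA x y z ∧ dA x y z < 49 / 108 * (1 + x + y + z)) ∧
  (∀ r s : ℝ, 0 ≤ r → 0 ≤ s → r + s ≤ 1 → 0 < r + s →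
    0 < dB r s ∧ dB r s < 49 / 108 * (1 + r + s))

/-- **S_DIS** (easy). If `D` is long in one of the seven directions then `K` and `K + D` have
disjoint interiors. Proof: let `φ` be the functional (say `w ≤ φ D`; the case `w ≤ -φ D` is
symmetric) and let `x` be interior to both; then `x` and `x - D` are interior points of `K`; moving
`x` a little in a direction with `φ > 0` (`x + ε • e` for a suitable basis vector `e`, still in `K`)
gives `φ (x + ε e) - φ (x - D) > φ D ≥ w`, a contradiction to `Wid`. -/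
def S_DIS : Prop := ∀ (K : Set V) (w0 w1 w2 wS w01 w02 w12 : ℝ), Wid K w0 w1 w2 wS w01 w02 w12 →
  ∀ D : V, Out w0 w1 w2 wS w01 w02 w12 D → Disjoint (interior K) (interior ((fun x => x + D) '' K))

/-- **S_WIDA** (easy-medium). Let `b ≥ 0`, `b n ≤ 1`, `u = b 0 + b 1 + b 2 - 1 ∈ [0, 1]`. The widths
of `K5 b` (attained at vertices: prove `p ∈ K5 b →` bounds by `convexHull_min` into a box-like convex
set: `0 ≤ p n ≤ 1`, `0 ≤ sum ≤ 1 + u`, `0 ≤ p 0 + p 1 ≤ max 1 (b 0 + b 1)` etc.). The numbers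
`(b 0 + b 1 - 1)⁺ = (u - b 2)⁺`, `(u - b 1)⁺`, `(u - b 0)⁺` have a sum at most `u` (three positive: the
sum is `3 u - (1 + u) = 2 u - 1 ≤ u`; two positive, for instance the first two:
`2 u - b 2 - b 1 = u - 1 + b 0 ≤ u`; one positive: `≤ u` as `b ≥ 0`), so one can enlarge one of them to
get the sum `u`. -/
def S_WIDA : Prop := ∀ b : V, (∀ n, 0 ≤ b n) → (∀ n, b n ≤ 1) → 1 ≤ b 0 + b 1 + b 2 →
  b 0 + b 1 + b 2 ≤ 2 → ∃ x y z : ℝ, 0 ≤ x ∧ 0 ≤ y ∧ 0 ≤ z ∧ x + y + z = b 0 + b 1 + b 2 - 1 ∧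
    Wid (K5 b) 1 1 1 (1 + x + y + z) (1 + x) (1 + y) (1 + z)

/-- **S_WIDB** (easy). The widths of `K5 ![-r, -s, q]`, `0 ≤ r, s`, `r + s ≤ q ≤ 1`
(`convexHull_min` into the convex set of all `p` with `-r ≤ p 0 ≤ 1`, `-s ≤ p 1 ≤ 1`, `0 ≤ p 2 ≤ 1`,
`0 ≤ p 0 + p 1 + p 2 ≤ 1`, `-(r + s) ≤ p 0 + p 1 ≤ 1`, `0 ≤ p 0 + p 2 ≤ 1`, `0 ≤ p 1 + p 2 ≤ 1`). -/
def S_WIDB : Prop := ∀ r s q : ℝ, 0 ≤ r → 0 ≤ s → r + s ≤ q → q ≤ 1 →
  Wid (K5 ![-r, -s, q]) (1 + r) (1 + s) 1 1 (1 + r + s) 1 1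

/-- **S_VOLA** (medium). The volume of `K5 b`, `b ≥ 0`, `b 0 + b 1 + b 2 ≥ 1`, is at least
`(b 0 + b 1 + b 2) / 6`: `K5 b` contains the tetrahedra `{0, e 0, e 1, e 2}` (volume `1/6`, in
`{sum ≤ 1}`) and `{b, e 0, e 1, e 2}` (volume `|det (e 0 - b, e 1 - b, e 2 - b)| / 6 = u / 6`, in
`{sum ≥ 1}`). See the library proof of a similar fact:
`Pool/Graph/R_pool_sql_team_seeded_63374d34/N707/CN/VOL.lean` (it contains the volume `1/6` of the unit
simplex `T` and of `T ∩ {0 < y n}`, the images under linear maps; the present fact is an affine image of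
it: `team-store fetch /workdir/pool Pool/Graph/R_pool_sql_team_seeded_63374d34/N707/CN/VOL.lean`). -/
def S_VOLA : Prop := ∀ b : V, (∀ n, 0 ≤ b n) → 1 ≤ b 0 + b 1 + b 2 →
  ENNReal.ofReal ((b 0 + b 1 + b 2) / 6) ≤ volume (K5 b)

/-- **S_VOLB** (medium). The volume of `K5 ![-r, -s, q]` is at least `(1 + r + s) / 6`: it contains the
tetrahedra `{0, e 0, e 1, e 2}` (in `{0 ≤ x 0, 0 ≤ x 1}`), `{0, b, e 1, e 2}` (volume `r / 6`, interior in
`{x 0 < 0, s x 0 < r x 1}`) and `{0, b, e 0, e 2}` (volume `s / 6`, interior in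
`{x 1 < 0, r x 1 < s x 0}`), `b = (-r, -s, q)`; the interiors are disjoint. (If `r = 0` or `s = 0` the
piece is not needed.) Same library file as for `S_VOLA`. -/
def S_VOLB : Prop := ∀ r s q : ℝ, 0 ≤ r → 0 ≤ s → r + s ≤ q → q ≤ 1 →
  ENNReal.ofReal ((1 + r + s) / 6) ≤ volume (K5 ![-r, -s, q])

/-- **S_NFA** (medium). Five points whose convex hull has interior points: choose four of them that span a
tetrahedron of the largest volume; the fifth one has barycentric coordinates in `[-1, 1]`. Proof: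
maximise `|det (p (σ 1) - p (σ 0), p (σ 2) - p (σ 0), p (σ 3) - p (σ 0))|` over the finite set of the
permutations `σ : Equiv.Perm (Fin 5)`; the maximum is positive, since otherwise all points lie in a plane
and the hull has no interior points (`interior_convexHull_nonempty_iff_affineSpan_eq_top`, then
`exists_affineIndependent` inside `Set.range p`, `4` points). `q i = p (σ i)`, `c = p (σ 4)`; the
barycentric coordinates `β` of `c` with respect to the affine basis `q` (`AffineBasis`), and replacing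
`q i` by `c` multiplies the determinant by `β i`. -/
def S_NFA : Prop := ∀ p : Fin 5 → V, (interior (convexHull ℝ (Set.range p))).Nonempty →
  ∃ (q : Fin 4 → V) (c : V) (β : Fin 4 → ℝ), AffineIndependent ℝ q ∧
    Set.range p = insert c (Set.range q) ∧ ∑ i, β i = 1 ∧ c = ∑ i, β i • q i ∧ ∀ i, |β i| ≤ 1

/-- **S_PAT** (easy). Four numbers in `[-1, 1]` with the sum `1`: at most two are negative, so after a
permutation either all are nonnegative, or exactly the first one is negative, or exactly the second and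
the third one are negative. -/
def S_PAT : Prop := ∀ β : Fin 4 → ℝ, ∑ i, β i = 1 → (∀ i, |β i| ≤ 1) → ∃ τ : Equiv.Perm (Fin 4),
  (∀ i, 0 ≤ β (τ i)) ∨ (β (τ 0) < 0 ∧ 0 ≤ β (τ 1) ∧ 0 ≤ β (τ 2) ∧ 0 ≤ β (τ 3)) ∨
  (0 ≤ β (τ 0) ∧ β (τ 1) < 0 ∧ β (τ 2) < 0 ∧ 0 ≤ β (τ 3))

/-- **S_COO** (easy-medium). Coordinates: an affine map with `q 0 ↦ 0`, `q (i + 1) ↦ e i`, and the image of
a point with given barycentric coordinates; and the image of the convex hull. -/
def S_COO : Prop := ∀ (q : Fin 4 → V) (c : V) (β : Fin 4 → ℝ), AffineIndependent ℝ q →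
  ∑ i, β i = 1 → c = ∑ i, β i • q i → ∃ (L : V ≃ₗ[ℝ] V) (t : V),
    (fun x => L x + t) '' convexHull ℝ (insert c (Set.range q)) = K5 ![β 1, β 2, β 3]

/-- **S_EXT** (medium). A compact convex set with fewer than six extreme points is the convex hull of five
points (Krein-Milman: `closure_convexHull_extremePoints`; a finite set has a compact convex hull;
enumerate the extreme points with repetitions). -/
def S_EXT : Prop := ∀ K : Set V, IsCompact K → Convex ℝ K → K.Nonempty →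
  (K.extremePoints ℝ).encard < 6 → ∃ p : Fin 5 → V, K = convexHull ℝ (Set.range p)

end Pool.Agent.H96.BP
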