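import Pool.Graph.R_pool_sql_team_seeded_63374d34.N334.CN.Asm
import Pool.Graph.R_seed8.TH219.DL.Bridge
import Pool.Agent.H96.BP.Stm

/-!
# Lattice packings of polytopes with at most five vertices: assembly
-/

set_option autoImplicit false

namespace Pool.Agent.H96.BP

open MeasureTheory Pool.Agent.H349R2.Tet
open scoped ENNReal

/-- the lattice with given basis packs -/
theorem asm_packs (hDIS : S_DIS) {K : Set V} {w0 w1 w2 wS w01 w02 w12 : ℝ}
    (hW : Wid K w0 w1 w2 wS w01 w02 w12) (b : Fin 3 → V) (hb : dt b ≠ 0)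
    (hout : ∀ i j k : ℤ, ¬ (i = 0 ∧ j = 0 ∧ k = 0) → Out w0 w1 w2 wS w01 w02 w12
      (fun n => (i : ℝ) * b 0 n + (j : ℝ) * b 1 n + (k : ℝ) * b 2 n)) : Packs K b := by
  rw [packs_iff]
  refine ⟨hb, ?_⟩
  rintro u ⟨z, hz⟩ hu ⟨x, hx, hxu⟩
  have hz0 : ¬ (z 0 = 0 ∧ z 1 = 0 ∧ z 2 = 0) := by
    rintro ⟨e0, e1, e2⟩
    apply hu
    rw [hz, Fin.sum_univ_three, e0, e1, e2]
    simp
  have h1 := hout _ _ _ hz0
  have h2 : (fun n => (z 0 : ℝ) * b 0 n + (z 1 : ℝ) * b 1 n + (z 2 : ℝ) * b 2 n) = u := by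
    funext n
    rw [hz, Fin.sum_univ_three]
    simp only [Pi.add_apply, Pi.smul_apply, smul_eq_mul]
  rw [h2] at h1
  have h3 := hDIS K _ _ _ _ _ _ _ hW u h1
  have h4 : interior ((fun x => x + u) '' K) = (fun x => x + u) '' interior K :=
    pack_interior_tr K u
  rw [h4, Set.disjoint_left] at h3
  exact h3 hx ⟨x - u, hxu, by simp⟩

theorem asm_cpt (b : V) : IsCompact (K5 b) := by
  apply Set.Finite.isCompact_convexHull
  exact ((Set.finite_range _).insert _).insert _

/-- one point beyond one facet -/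
theorem asm_A (hOUT : S_OUTA) (hDET : S_DET) (hDIS : S_DIS) (hWID : S_WIDA) (hVOL : S_VOLA) (b : V)
    (h0 : ∀ n, 0 ≤ b n) (h1 : ∀ n, b n ≤ 1) (hs : 1 < b 0 + b 1 + b 2)
    (hs2 : b 0 + b 1 + b 2 ≤ 2) : 18 / 49 < deltaL (K5 b) := by
  obtain ⟨x, y, z, hx, hy, hz, hsum, hW⟩ := hWID b h0 h1 hs.le hs2
  obtain ⟨hd1, -, hd3, -⟩ := hDET
  obtain ⟨hpos, hlt⟩ := hd3 x y z hx hy hz (by linarith) (by linarith)
  have hdt : dt ![fA x y z, gA x y z, hA x y z] = -dA x y z := hd1 x y z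
  have hne : dt ![fA x y z, gA x y z, hA x y z] ≠ 0 := by
    rw [hdt]
    linarith
  have hP : Packs (K5 b) ![fA x y z, gA x y z, hA x y z] :=
    asm_packs hDIS hW _ hne (hOUT x y z hx hy hz (by linarith))
  have hr := Pool.Agent.N334.CN.ratio_le (asm_cpt b) hP
  rw [hdt, abs_neg, abs_of_pos hpos] at hr
  refine lt_of_lt_of_le (Pool.Agent.N334.CN.lt_of_vol hpos (hVOL b h0 hs.le) ?_) hr
  linarith

/-- one point beyond two facets -/
theorem asm_B (hOUT : S_OUTB) (hDET : S_DET) (hDIS : S_DIS) (hWID : S_WIDB) (hVOL : S_VOLB)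
    (r s q : ℝ) (hr : 0 ≤ r) (hs : 0 ≤ s) (hpos : 0 < r + s) (hq : r + s ≤ q) (hq1 : q ≤ 1) :
    18 / 49 < deltaL (K5 ![-r, -s, q]) := by
  obtain ⟨-, hd2, -, hd4⟩ := hDET
  obtain ⟨hdp, hlt⟩ := hd4 r s hr hs (by linarith) hpos
  have hdt : dt ![fB r s, gB r s, hB r s] = -dB r s := hd2 r s
  have hne : dt ![fB r s, gB r s, hB r s] ≠ 0 := by
    rw [hdt]
    linarith
  have hP : Packs (K5 ![-r, -s, q]) ![fB r s, gB r s, hB r s] :=
    asm_packs hDIS (hWID r s q hr hs hq hq1) _ hne (hOUT r s hr hs (by linarith))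
  have hra := Pool.Agent.N334.CN.ratio_le (asm_cpt _) hP
  rw [hdt, abs_neg, abs_of_pos hdp] at hra
  refine lt_of_lt_of_le (Pool.Agent.N334.CN.lt_of_vol hdp (hVOL r s q hr hs hq hq1) ?_) hra
  linarith

theorem asm_main (hOUTA : S_OUTA) (hOUTB : S_OUTB) (hDET : S_DET) (hDIS : S_DIS) (hWIDA : S_WIDA)
    (hWIDB : S_WIDB) (hVOLA : S_VOLA) (hVOLB : S_VOLB) (hNFA : S_NFA) (hPAT : S_PAT) (hCOO : S_COO)
    (p : Fin 5 → V) (hint : (interior (convexHull ℝ (Set.range p))).Nonempty) :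
    18 / 49 ≤ deltaL (convexHull ℝ (Set.range p)) ∧
      (deltaL (convexHull ℝ (Set.range p)) = 18 / 49 ↔ ∃ q : Fin 4 → V, AffineIndependent ℝ q ∧
        convexHull ℝ (Set.range p) = convexHull ℝ (Set.range q)) := by
  obtain ⟨q, c, β, hq, hrange, hβ, hc, habs⟩ := hNFA p hint
  have key : 18 / 49 < deltaL (convexHull ℝ (Set.range p)) ∨
      convexHull ℝ (Set.range p) = convexHull ℝ (Set.range q) := by
    obtain ⟨τ, hτ⟩ := hPAT β hβ habs
    -- the permuted data
    have hq' : AffineIndependent ℝ (q ∘ τ) := (affineIndependent_equiv τ).2 hq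
    have hβ' : ∑ i, (β ∘ τ) i = 1 := by rw [← hβ]; exact Equiv.sum_comp τ β
    have hc' : c = ∑ i, (β ∘ τ) i • (q ∘ τ) i := by
      rw [hc]
      exact (Equiv.sum_comp τ (fun i => β i • q i)).symm
    have hr' : Set.range (q ∘ τ) = Set.range q := τ.surjective.range_comp q
    obtain ⟨L, t, hL⟩ := hCOO (q ∘ τ) c (β ∘ τ) hq' hβ' hc'
    rw [hr', ← hrange] at hL
    have hcpt : IsCompact (convexHull ℝ (Set.range p)) := (Set.finite_range p).isCompact_convexHull ℝ
    have hδ := deltaL_image hcpt L t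
    rw [hL] at hδ
    rw [Fin.sum_univ_four] at hβ'
    simp only [Function.comp_apply] at hβ' hδ
    have hb := fun i => abs_le.1 (habs (τ i))
    rcases hτ with h | ⟨h0, h1, h2, h3⟩ | ⟨h0, h1, h2, h3⟩
    · right
      rw [hrange]
      apply Set.Subset.antisymm
      · apply convexHull_min _ (convex_convexHull ℝ _)
        apply Set.insert_subset _ (subset_convexHull ℝ _)
        rw [hc]
        refine (convex_convexHull ℝ _).sum_mem (fun i _ => ?_) hβ
          (fun i _ => subset_convexHull ℝ _ ⟨i, rfl⟩)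
        have := h (τ.symm i)
        rwa [Equiv.apply_symm_apply] at this
      · exact convexHull_mono (Set.subset_insert _ _)
    · left
      rw [← hδ]
      refine asm_A hOUTA hDET hDIS hWIDA hVOLA _ ?_ ?_ ?_ ?_
      · intro n
        fin_cases n
        · exact h1
        · exact h2
        · exact h3
      · intro n
        fin_cases n
        · exact (hb 1).2
        · exact (hb 2).2
        · exact (hb 3).2
      · show 1 < β (τ 1) + β (τ 2) + β (τ 3)
        linarith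
      · show β (τ 1) + β (τ 2) + β (τ 3) ≤ 2
        have := (hb 0).1
        linarith
    · left
      rw [← hδ]
      have h4 := asm_B hOUTB hDET hDIS hWIDB hVOLB (-β (τ 1)) (-β (τ 2)) (β (τ 3)) (by linarith)
        (by linarith) (by linarith) (by have := (hb 0).2; linarith) (hb 3).2
      simpa only [neg_neg] using h4
  constructor
  · rcases key with h | h
    · exact h.le
    · rw [h, deltaL_tetra q hq]
  · constructor
    · intro he
      rcases key with h | h
      · exact absurd he h.ne'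
      · exact ⟨q, hq, h⟩
    · rintro ⟨q', hq', he⟩
      rw [he, deltaL_tetra q' hq']

end Pool.Agent.H96.BP
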