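import Pool.Agent.H96.BP.Stm

/-!
# Lattice packings of polytopes with at most five vertices: statements for the quantitative version
-/

set_option autoImplicit false

namespace Pool.Agent.H96.BP

open MeasureTheory

/-- the unit tetrahedron `conv {0, e 0, e 1, e 2}` -/
def T4 : Set V := convexHull ℝ (insert 0 (Set.range fun n : Fin 3 => (Pi.single n 1 : V)))

/-- **S_STA** (easy). Two polynomial inequalities of degree 4 on the simplex (the file `Det.lean`, in the
store as `helper96_BP_Det_done.lean`, proves weaker ones, without the factor `1 + R/10`). The second one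
is rather tight at `(r, s) = (1, 0)`: there `89/108 * 11/10 = 979/1080 < 980/1080`. -/
def S_STA : Prop :=
  (∀ x y z : ℝ, 0 ≤ x → 0 ≤ y → 0 ≤ z → x + y + z ≤ 1 →
    dA x y z * (1 + (x + y + z) / 10) ≤ 49 / 108 * (1 + x + y + z)) ∧
  (∀ r s : ℝ, 0 ≤ r → 0 ≤ s → r + s ≤ 1 →
    dB r s * (1 + (r + s) / 10) ≤ 49 / 108 * (1 + r + s))

/-- **S_COO2** (easy-medium). As `S_COO` (whose proof is in the store, `helper96_BP_Coo_done.lean`), and in
addition the same map sends the tetrahedron with the vertices `q` to the unit tetrahedron. -/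
def S_COO2 : Prop := ∀ (q : Fin 4 → V) (c : V) (β : Fin 4 → ℝ), AffineIndependent ℝ q →
  ∑ i, β i = 1 → c = ∑ i, β i • q i → ∃ (L : V ≃ₗ[ℝ] V) (t : V),
    (fun x => L x + t) '' convexHull ℝ (insert c (Set.range q)) = K5 ![β 1, β 2, β 3] ∧
    (fun x => L x + t) '' convexHull ℝ (Set.range q) = T4

/-- **S_RAT** (easy). Affine maps preserve ratios of volumes, and the unit tetrahedron has volume `1/6`
(library: `Pool.Agent.H349R2.Tet.vol_le` in `Pool.Graph.R_seed8.H349R2.Tet.Vol`, used in the same way in
`helper96_BP_VolA_done.lean`; the convex hull `T4` is `{y | 0 ≤ y n, y 0 + y 1 + y 2 ≤ 1}`).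
If `(fun x => L x + t) '' Δ = T4` then, for compact `K`, the volume of the image of `K` is
`volume K / volume Δ / 6`, and `volume Δ` is positive and finite. -/
def S_RAT : Prop := ∀ (L : V ≃ₗ[ℝ] V) (t : V) (K Δ : Set V), IsCompact K →
  (fun x => L x + t) '' Δ = T4 → 0 < (volume Δ).toReal ∧
    volume ((fun x => L x + t) '' K) =
      ENNReal.ofReal ((volume K).toReal / (volume Δ).toReal / 6)

end Pool.Agent.H96.BP
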