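import Pool.Agent.H96.BP.Asm
import Pool.Agent.H96.BP.Stm2

/-!
# Lattice packings of polytopes with at most five vertices: the quantitative version
-/

set_option autoImplicit false

namespace Pool.Agent.H96.BP

open MeasureTheory Pool.Agent.H349R2.Tet
open scoped ENNReal

theorem asm2_num {d R v : ℝ} (hd : 0 < d) (hR : 0 ≤ R) (h1 : d * (1 + R / 10) ≤ 49 / 108 * (1 + R))
    (hv : 1 + R ≤ v) : 18 / 49 * (1 + (v - 1) / 10) ≤ v / 6 / d := by
  rw [le_div_iff₀ hd]
  have h2 : (1 + R / 10) * (18 / 49 * (1 + (v - 1) / 10) * d) ≤ (1 + R / 10) * (v / 6) := by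
    have h3 : 0 ≤ 9 + v := by linarith
    have h4 := mul_le_mul_of_nonneg_left h1 h3
    nlinarith
  exact le_of_mul_le_mul_left h2 (by linarith)

theorem asm2_fin {K : Set V} {d R v : ℝ} (hd : 0 < d) (hR : 0 ≤ R)
    (h1 : d * (1 + R / 10) ≤ 49 / 108 * (1 + R)) (hvol : ENNReal.ofReal ((1 + R) / 6) ≤ volume K)
    (hv : volume K = ENNReal.ofReal (v / 6)) (hle : volume K / ENNReal.ofReal d ≤ deltaL K) :
    ENNReal.ofReal (18 / 49 * (1 + (v - 1) / 10)) ≤ deltaL K := by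
  rw [hv] at hvol hle
  rw [← ENNReal.ofReal_div_of_pos hd] at hle
  have h2 : (1 + R) / 6 ≤ v / 6 := by
    by_contra h3
    push Not at h3
    have h4 := (ENNReal.ofReal_lt_ofReal_iff (show 0 < (1 + R) / 6 by linarith)).2 h3
    exact absurd hvol (not_le.2 h4)
  exact le_trans (ENNReal.ofReal_le_ofReal (asm2_num hd hR h1 (by linarith))) hle

/-- one point beyond one facet -/
theorem asm2_A (hOUT : S_OUTA) (hDET : S_DET) (hSTA : S_STA) (hDIS : S_DIS) (hWID : S_WIDA)
    (hVOL : S_VOLA) (b : V) (h0 : ∀ n, 0 ≤ b n) (h1 : ∀ n, b n ≤ 1) (hs : 1 < b 0 + b 1 + b 2)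
    (hs2 : b 0 + b 1 + b 2 ≤ 2) (v : ℝ) (hv : volume (K5 b) = ENNReal.ofReal (v / 6)) :
    ENNReal.ofReal (18 / 49 * (1 + (v - 1) / 10)) ≤ deltaL (K5 b) := by
  obtain ⟨x, y, z, hx, hy, hz, hsum, hW⟩ := hWID b h0 h1 hs.le hs2
  obtain ⟨hd1, -, hd3, -⟩ := hDET
  obtain ⟨hpos, hlt⟩ := hd3 x y z hx hy hz (by linarith) (by linarith)
  have hdt : dt ![fA x y z, gA x y z, hA x y z] = -dA x y z := hd1 x y z
  have hne : dt ![fA x y z, gA x y z, hA x y z] ≠ 0 := by
    rw [hdt]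
    linarith
  have hP : Packs (K5 b) ![fA x y z, gA x y z, hA x y z] :=
    asm_packs hDIS hW _ hne (hOUT x y z hx hy hz (by linarith))
  have hr := Pool.Agent.N334.CN.ratio_le (asm_cpt b) hP
  rw [hdt, abs_neg, abs_of_pos hpos] at hr
  have h3 := hSTA.1 x y z hx hy hz (by linarith)
  refine asm2_fin (R := x + y + z) hpos (by linarith) (by linarith) ?_ hv hr
  have h4 := hVOL b h0 hs.le
  have e : (1 + (x + y + z)) / 6 = (b 0 + b 1 + b 2) / 6 := by rw [hsum]; ring
  rw [e]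
  exact h4

/-- one point beyond two facets -/
theorem asm2_B (hOUT : S_OUTB) (hDET : S_DET) (hSTA : S_STA) (hDIS : S_DIS) (hWID : S_WIDB)
    (hVOL : S_VOLB) (r s q : ℝ) (hr : 0 ≤ r) (hs : 0 ≤ s) (hpos : 0 < r + s) (hq : r + s ≤ q)
    (hq1 : q ≤ 1) (v : ℝ) (hv : volume (K5 ![-r, -s, q]) = ENNReal.ofReal (v / 6)) :
    ENNReal.ofReal (18 / 49 * (1 + (v - 1) / 10)) ≤ deltaL (K5 ![-r, -s, q]) := by
  obtain ⟨-, hd2, -, hd4⟩ := hDET
  obtain ⟨hdp, hlt⟩ := hd4 r s hr hs (by linarith) hpos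
  have hdt : dt ![fB r s, gB r s, hB r s] = -dB r s := hd2 r s
  have hne : dt ![fB r s, gB r s, hB r s] ≠ 0 := by
    rw [hdt]
    linarith
  have hP : Packs (K5 ![-r, -s, q]) ![fB r s, gB r s, hB r s] :=
    asm_packs hDIS (hWID r s q hr hs hq hq1) _ hne (hOUT r s hr hs (by linarith))
  have hra := Pool.Agent.N334.CN.ratio_le (asm_cpt _) hP
  rw [hdt, abs_neg, abs_of_pos hdp] at hra
  have h3 := hSTA.2 r s hr hs (by linarith)
  refine asm2_fin (R := r + s) hdp (by linarith) (by linarith) ?_ hv hra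
  have h4 := hVOL r s q hr hs hq hq1
  have e : (1 + (r + s)) / 6 = (1 + r + s) / 6 := by ring
  rw [e]
  exact h4

theorem asm2_main (hOUTA : S_OUTA) (hOUTB : S_OUTB) (hDET : S_DET) (hSTA : S_STA) (hDIS : S_DIS)
    (hWIDA : S_WIDA) (hWIDB : S_WIDB) (hVOLA : S_VOLA) (hVOLB : S_VOLB) (hNFA : S_NFA)
    (hPAT : S_PAT) (hCOO : S_COO2) (hRAT : S_RAT)
    (p : Fin 5 → V) (hint : (interior (convexHull ℝ (Set.range p))).Nonempty) :
    ∃ q : Fin 4 → V, AffineIndependent ℝ q ∧ Set.range q ⊆ Set.range p ∧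
      ENNReal.ofReal (18 / 49 * (1 + ((volume (convexHull ℝ (Set.range p))).toReal /
        (volume (convexHull ℝ (Set.range q))).toReal - 1) / 10)) ≤
        deltaL (convexHull ℝ (Set.range p)) := by
  obtain ⟨q, c, β, hq, hrange, hβ, hc, habs⟩ := hNFA p hint
  refine ⟨q, hq, by rw [hrange]; exact Set.subset_insert _ _, ?_⟩
  obtain ⟨τ, hτ⟩ := hPAT β hβ habs
  -- the permuted data
  have hq' : AffineIndependent ℝ (q ∘ τ) := (affineIndependent_equiv τ).2 hq
  have hβ' : ∑ i, (β ∘ τ) i = 1 := by rw [← hβ]; exact Equiv.sum_comp τ β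
  have hc' : c = ∑ i, (β ∘ τ) i • (q ∘ τ) i := by
    rw [hc]
    exact (Equiv.sum_comp τ (fun i => β i • q i)).symm
  have hr' : Set.range (q ∘ τ) = Set.range q := τ.surjective.range_comp q
  obtain ⟨L, t, hL, hL4⟩ := hCOO (q ∘ τ) c (β ∘ τ) hq' hβ' hc'
  rw [hr', ← hrange] at hL
  rw [hr'] at hL4
  have hcpt : IsCompact (convexHull ℝ (Set.range p)) := (Set.finite_range p).isCompact_convexHull ℝ
  have hδ := deltaL_image hcpt L t
  obtain ⟨hΔ, hvol⟩ := hRAT L t _ _ hcpt hL4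
  rw [hL] at hδ hvol
  rw [Fin.sum_univ_four] at hβ'
  simp only [Function.comp_apply] at hβ' hδ hvol
  have hb := fun i => abs_le.1 (habs (τ i))
  rcases hτ with h | ⟨h0, h1, h2, h3⟩ | ⟨h0, h1, h2, h3⟩
  · have he : convexHull ℝ (Set.range p) = convexHull ℝ (Set.range q) := by
      rw [hrange]
      apply Set.Subset.antisymm
      · apply convexHull_min _ (convex_convexHull ℝ _)
        apply Set.insert_subset _ (subset_convexHull ℝ _)
        rw [hc]
        refine (convex_convexHull ℝ _).sum_mem (fun i _ => ?_) hβ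
          (fun i _ => subset_convexHull ℝ _ ⟨i, rfl⟩)
        have := h (τ.symm i)
        rwa [Equiv.apply_symm_apply] at this
      · exact convexHull_mono (Set.subset_insert _ _)
    rw [he, div_self hΔ.ne', deltaL_tetra q hq, Pool.Agent.N334.CN.e1849]
    apply ENNReal.ofReal_le_ofReal
    norm_num
  · rw [← hδ]
    refine asm2_A hOUTA hDET hSTA hDIS hWIDA hVOLA _ ?_ ?_ ?_ ?_ _ hvol
    · intro n
      fin_cases n
      · exact h1
      · exact h2
      · exact h3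
    · intro n
      fin_cases n
      · exact (hb 1).2
      · exact (hb 2).2
      · exact (hb 3).2
    · show 1 < β (τ 1) + β (τ 2) + β (τ 3)
      linarith
    · show β (τ 1) + β (τ 2) + β (τ 3) ≤ 2
      have := (hb 0).1
      linarith
  · rw [← hδ]
    have h4 := asm2_B hOUTB hDET hSTA hDIS hWIDB hVOLB (-β (τ 1)) (-β (τ 2)) (β (τ 3)) (by linarith)
      (by linarith) (by linarith) (by have := (hb 0).2; linarith) (hb 3).2
      ((volume (convexHull ℝ (Set.range p))).toReal / (volume (convexHull ℝ (Set.range q))).toReal)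
      (by simpa only [neg_neg] using hvol)
    simpa only [neg_neg] using h4

end Pool.Agent.H96.BP
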