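import Pool.Agent.H96.BP.Stm

/-!
Affine coordinates for a tetrahedron.
-/

set_option autoImplicit false

namespace Pool.Agent.H96.BP

open Module

theorem coo_li {q : Fin 4 → V} (hq : AffineIndependent ℝ q) :
    LinearIndependent ℝ (fun i : Fin 3 => q i.succ - q 0) := by
  have h := (affineIndependent_iff_linearIndependent_vsub ℝ q 0).1 hq
  exact h.comp (fun i : Fin 3 => (⟨i.succ, Fin.succ_ne_zero i⟩ : {x : Fin 4 // x ≠ 0}))
    (fun i j hij => Fin.succ_injective 3 (congrArg Subtype.val hij))

/-- **S_COO** -/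
theorem t_coo : S_COO := by
  intro q c β hq hβ hc
  have hli := coo_li hq
  let b : Basis (Fin 3) ℝ V := basisOfLinearIndependentOfCardEqFinrank hli (by simp)
  have hb : ∀ i, b i = q i.succ - q 0 := fun i => by
    simp only [b, coe_basisOfLinearIndependentOfCardEqFinrank]
  let L : V ≃ₗ[ℝ] V := b.equivFun
  have hL : ∀ i : Fin 3, L (q i.succ) - L (q 0) = Pi.single i 1 := by
    intro i
    rw [← map_sub, ← hb]
    funext j
    have h1 : L (b i) j = if i = j then 1 else 0 := b.equivFun_self i j
    rw [h1, Pi.single_apply]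
    by_cases hij : i = j
    · rw [if_pos hij, if_pos hij.symm]
    · rw [if_neg hij, if_neg (fun h => hij h.symm)]
  let f : V →ᵃ[ℝ] V :=
    { toFun := fun x => L x + - L (q 0)
      linear := L.toLinearMap
      map_vadd' := by
        intro p v
        simp only [vadd_eq_add, map_add, LinearEquiv.coe_coe]
        abel }
  have hf : ∀ x, f x = L x + - L (q 0) := fun x => rfl
  refine ⟨L, - L (q 0), ?_⟩
  have h1 : (fun x => L x + - L (q 0)) '' convexHull ℝ (insert c (Set.range q)) =
      convexHull ℝ (f '' insert c (Set.range q)) := f.image_convexHull _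
  rw [h1, Set.image_insert_eq]
  have h2 : f c = ![β 1, β 2, β 3] := by
    have e1 : f c = ∑ i : Fin 4, β i • (L (q i) - L (q 0)) := by
      rw [hf, hc, map_sum]
      simp only [map_smul, smul_sub, Finset.sum_sub_distrib]
      rw [← Finset.sum_smul, hβ, one_smul, sub_eq_add_neg]
    rw [e1, Fin.sum_univ_succ, sub_self, smul_zero, zero_add]
    simp only [hL]
    funext j
    rw [Finset.sum_apply]
    fin_cases j <;> simp [Fin.sum_univ_three]
  have h3 : f '' Set.range q = insert 0 (Set.range fun n : Fin 3 => (Pi.single n 1 : V)) := by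
    ext y
    constructor
    · rintro ⟨_, ⟨i, rfl⟩, rfl⟩
      refine Fin.cases ?_ (fun i => ?_) i
      · left
        rw [hf, add_neg_cancel]
      · right
        refine ⟨i, ?_⟩
        show (Pi.single i 1 : V) = f (q i.succ)
        rw [hf, ← sub_eq_add_neg, hL]
    · rintro (rfl | ⟨i, rfl⟩)
      · refine ⟨q 0, ⟨0, rfl⟩, ?_⟩
        rw [hf, add_neg_cancel]
      · refine ⟨q i.succ, ⟨i.succ, rfl⟩, ?_⟩
        show f (q i.succ) = (Pi.single i 1 : V)
        rw [hf, ← sub_eq_add_neg, hL]
  rw [h2, h3]
  rfl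

end Pool.Agent.H96.BP
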