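import Pool.Agent.H96.BP.Stm

/-!
# The two determinants and the comparison with the volume
-/

set_option autoImplicit false

namespace Pool.Agent.H96.BP

theorem det_A (x y z : ℝ) : Matrix.det ![fA x y z, gA x y z, hA x y z] = -dA x y z := by
  refine (Matrix.det_fin_three (Matrix.of ![fA x y z, gA x y z, hA x y z])).trans ?_
  simp only [Matrix.of_apply, fA, gA, hA, dA, Matrix.cons_val_zero, Matrix.cons_val_one,
    Matrix.cons_val]
  ring

theorem det_B (r s : ℝ) : Matrix.det ![fB r s, gB r s, hB r s] = -dB r s := by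
  refine (Matrix.det_fin_three (Matrix.of ![fB r s, gB r s, hB r s])).trans ?_
  simp only [Matrix.of_apply, fB, gB, hB, dB, Matrix.cons_val_zero, Matrix.cons_val_one,
    Matrix.cons_val]
  ring

theorem det_cA (x y z : ℝ) (hx : 0 ≤ x) (hy : 0 ≤ y) (hz : 0 ≤ z) (h : x + y + z ≤ 1)
    (h0 : 0 < x + y + z) : 0 < dA x y z ∧ dA x y z < 49 / 108 * (1 + x + y + z) := by
  have hx1 : x ≤ 1 := by linarith
  have hy1 : y ≤ 1 := by linarith
  have hz1 : z ≤ 1 := by linarith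
  have xx : x * x ≤ x * 1 := mul_le_mul_of_nonneg_left hx1 hx
  have yy : y * y ≤ y * 1 := mul_le_mul_of_nonneg_left hy1 hy
  have zz : z * z ≤ z * 1 := mul_le_mul_of_nonneg_left hz1 hz
  have xy0 : 0 ≤ x * y := mul_nonneg hx hy
  have xz0 : 0 ≤ x * z := mul_nonneg hx hz
  have yz0 : 0 ≤ y * z := mul_nonneg hy hz
  have xy1 : x * y ≤ y := by nlinarith
  have xz1 : x * z ≤ z := by nlinarith
  have yz1 : y * z ≤ y := by nlinarith
  have yz2 : y * z ≤ z := by nlinarith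
  have xxx : 0 ≤ x ^ 3 := by positivity
  have xxx1 : x ^ 3 ≤ x ^ 2 := by nlinarith [mul_nonneg (mul_nonneg hx hx) (sub_nonneg.2 hx1)]
  have xxz : x ^ 2 * z ≤ z := by nlinarith
  have xxz0 : 0 ≤ x ^ 2 * z := by positivity
  have xyz0 : 0 ≤ x * y * z := by positivity
  have xyz1 : x * y * z ≤ y * z := by nlinarith
  have yyz0 : 0 ≤ y ^ 2 * z := by positivity
  have yyz1 : y ^ 2 * z ≤ y := by nlinarith
  have yzz0 : 0 ≤ y * z ^ 2 := by positivity
  have yzz1 : y * z ^ 2 ≤ z := by nlinarith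
  have q := sq_nonneg (y - z)
  unfold dA
  constructor
  · nlinarith
  · nlinarith

theorem det_cB (r s : ℝ) (hr : 0 ≤ r) (hs : 0 ≤ s) (h : r + s ≤ 1) (h0 : 0 < r + s) :
    0 < dB r s ∧ dB r s < 49 / 108 * (1 + r + s) := by
  have hr1 : r ≤ 1 := by linarith
  have hs1 : s ≤ 1 := by linarith
  have rr : r * r ≤ r * 1 := mul_le_mul_of_nonneg_left hr1 hr
  have ss : s * s ≤ s * 1 := mul_le_mul_of_nonneg_left hs1 hs
  have rs0 : 0 ≤ r * s := mul_nonneg hr hs
  have rs1 : r * s ≤ r := by nlinarith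
  have rrr : 0 ≤ r ^ 3 := by positivity
  have sss : 0 ≤ s ^ 3 := by positivity
  have rrr1 : r ^ 3 ≤ r ^ 2 := by nlinarith [mul_nonneg (mul_nonneg hr hr) (sub_nonneg.2 hr1)]
  have sss1 : s ^ 3 ≤ s ^ 2 := by nlinarith [mul_nonneg (mul_nonneg hs hs) (sub_nonneg.2 hs1)]
  have c0 : 0 ≤ r * s * (r + s) := by positivity
  have c1 : r * s * (r + s) ≤ r * s * 1 := mul_le_mul_of_nonneg_left h rs0
  unfold dB
  constructor
  · nlinarith
  · nlinarith

theorem t_det : S_DET := ⟨det_A, det_B, det_cA, det_cB⟩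

end Pool.Agent.H96.BP
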