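import Pool.Agent.H96.BP.Stm

/-!
# Project BP (helper96), task DIS: translates with a long difference vector
-/

set_option autoImplicit false

namespace Pool.Agent.H96.BP

open MeasureTheory Topology

theorem dis_gen (K : Set V) (φ : V →ₗ[ℝ] ℝ) (e : V) (he : φ e = 1) (w : ℝ)
    (hw : ∀ p ∈ K, ∀ q ∈ K, φ p - φ q ≤ w) (D : V) (hD : w ≤ |φ D|) :
    Disjoint (interior K) (interior ((fun x => x + D) '' K)) := by
  rw [Set.disjoint_left]
  intro x hx hx'
  obtain ⟨y, hy, hyx⟩ := interior_subset hx'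
  have hyx' : y + D = x := hyx
  have hφ : φ x = φ y + φ D := by rw [← hyx', map_add]
  have hc : Continuous (fun t : ℝ => x + t • e) := by fun_prop
  have ht : Filter.Tendsto (fun t : ℝ => x + t • e) (𝓝 0) (𝓝 x) :=
    hc.tendsto' 0 x (by simp)
  have hev : ∀ᶠ t in 𝓝 (0 : ℝ), x + t • e ∈ K :=
    ht.eventually (mem_interior_iff_mem_nhds.1 hx)
  obtain ⟨δ, hδ, hball⟩ := Metric.eventually_nhds_iff.1 hev
  have h1 : x + (δ / 2) • e ∈ K := hball (by
    rw [Real.dist_eq, sub_zero, abs_of_pos (by linarith)]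
    linarith)
  have h2 : x + (-(δ / 2)) • e ∈ K := hball (by
    rw [Real.dist_eq, sub_zero, abs_neg, abs_of_pos (by linarith)]
    linarith)
  have e1 : φ (x + (δ / 2) • e) = φ x + δ / 2 := by
    rw [map_add, map_smul, he, smul_eq_mul, mul_one]
  have e2 : φ (x + (-(δ / 2)) • e) = φ x - δ / 2 := by
    rw [map_add, map_smul, he, smul_eq_mul, mul_one]
    ring
  have h3 := hw _ h1 _ hy
  have h4 := hw _ hy _ h2
  rw [e1] at h3
  rw [e2] at h4
  rcases le_abs'.1 hD with h | h <;> linarith

/-- the functional with given coefficients -/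
noncomputable def dis_phi (a b c : ℝ) : V →ₗ[ℝ] ℝ :=
  a • LinearMap.proj 0 + b • LinearMap.proj 1 + c • LinearMap.proj 2

theorem dis_phi_apply (a b c : ℝ) (x : V) :
    dis_phi a b c x = a * x 0 + b * x 1 + c * x 2 := by
  simp [dis_phi]

theorem dis_use (K : Set V) (a b c : ℝ) (e : V) (he : a * e 0 + b * e 1 + c * e 2 = 1) (w : ℝ)
    (hw : ∀ p ∈ K, ∀ q ∈ K, (a * p 0 + b * p 1 + c * p 2) - (a * q 0 + b * q 1 + c * q 2) ≤ w)
    (D : V) (hD : w ≤ |a * D 0 + b * D 1 + c * D 2|) :
    Disjoint (interior K) (interior ((fun x => x + D) '' K)) := by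
  refine dis_gen K (dis_phi a b c) e ?_ w ?_ D ?_
  · rw [dis_phi_apply, he]
  · intro p hp q hq
    rw [dis_phi_apply, dis_phi_apply]
    exact hw p hp q hq
  · rw [dis_phi_apply]
    exact hD

theorem t_dis : S_DIS := by
  intro K w0 w1 w2 wS w01 w02 w12 hW D hD
  rcases hD with h | h | h | h | h | h | h
  · refine dis_use K 1 0 0 ![1, 0, 0] (by simp) w0 ?_ D ?_
    · intro p hp q hq
      have := (hW p hp q hq).1
      linarith
    · simpa using h
  · refine dis_use K 0 1 0 ![0, 1, 0] (by simp) w1 ?_ D ?_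
    · intro p hp q hq
      have := (hW p hp q hq).2.1
      linarith
    · simpa using h
  · refine dis_use K 0 0 1 ![0, 0, 1] (by simp) w2 ?_ D ?_
    · intro p hp q hq
      have := (hW p hp q hq).2.2.1
      linarith
    · simpa using h
  · refine dis_use K 1 1 1 ![1, 0, 0] (by simp) wS ?_ D ?_
    · intro p hp q hq
      have := (hW p hp q hq).2.2.2.1
      linarith
    · simpa using h
  · refine dis_use K 1 1 0 ![1, 0, 0] (by simp) w01 ?_ D ?_
    · intro p hp q hq
      have := (hW p hp q hq).2.2.2.2.1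
      linarith
    · simpa using h
  · refine dis_use K 1 0 1 ![1, 0, 0] (by simp) w02 ?_ D ?_
    · intro p hp q hq
      have := (hW p hp q hq).2.2.2.2.2.1
      linarith
    · simpa using h
  · refine dis_use K 0 1 1 ![0, 1, 0] (by simp) w12 ?_ D ?_
    · intro p hp q hq
      have := (hW p hp q hq).2.2.2.2.2.2
      linarith
    · simpa using h

end Pool.Agent.H96.BP
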