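import Pool.Agent.H96.BP.Stm

/-! Project BP (helper96): `S_EXT` (proof by helper30). -/

set_option autoImplicit false

namespace Pool.Agent.H96.BP

/-- a nonempty set with at most five elements is the range of a sequence of five elements -/
theorem ext_enum {E : Set V} (hne : E.Nonempty) (hc : E.encard < 6) :
    E.Finite ∧ ∃ p : Fin 5 → V, Set.range p = E := by
  have hfin : E.Finite := by
    rw [← Set.encard_lt_top_iff]
    exact hc.trans (by exact ENat.natCast_lt_top 6)
  refine ⟨hfin, ?_⟩
  have : Fintype E := hfin.fintype
  have : Nonempty E := hne.to_subtype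
  have h1 : Fintype.card E ≤ Fintype.card (Fin 5) := by
    rw [Fintype.card_fin]
    rw [Set.encard_eq_coe_toFinset_card, Set.toFinset_card] at hc
    have h2 : Fintype.card E < 6 := by exact_mod_cast hc
    omega
  obtain ⟨f⟩ := Function.Embedding.nonempty_of_card_le h1
  refine ⟨fun i => ((Function.invFun (f : E → Fin 5) i : E) : V), ?_⟩
  have h2 : Function.Surjective (Function.invFun (f : E → Fin 5)) := Function.invFun_surjective f.injective
  have h3 : (fun i => ((Function.invFun (f : E → Fin 5) i : E) : V)) = Subtype.val ∘ Function.invFun (f : E → Fin 5) := rfl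
  rw [h3, Set.range_comp, h2.range_eq, Set.image_univ, Subtype.range_coe]

theorem t_ext : S_EXT := by
  intro K hK hconv hne hc
  obtain ⟨hfin, p, hp⟩ := ext_enum (hK.extremePoints_nonempty hne) hc
  refine ⟨p, ?_⟩
  rw [hp, ← (hfin.isClosed_convexHull ℝ).closure_eq]
  exact (closure_convexHull_extremePoints hK hconv).symm

end Pool.Agent.H96.BP
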