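import Pool.Graph.R_seed8.H349R2.Tet.Final2
import Pool.Graph.R_seed8.TH219.DL.Bridge

/-!
# The least lattice packing density is smaller than `18/49`
-/

set_option autoImplicit false

namespace Pool.Agent.H96.BP

open MeasureTheory Pool.Agent.TH219.DL
open scoped ENNReal

theorem min_lt : mn dL < 18 / 49 := by
  have h1 : mn dL ≤ dL (Pool.Agent.H349R2.Tet.K (1 / 10 ^ 15)) :=
    iInf₂_le _ ⟨Pool.Agent.H349R2.Tet.K_compact _,
      Pool.Agent.H349R2.Tet.K_convex _ (by positivity),
      Pool.Agent.H349R2.Tet.K_interior _ (by positivity) (by norm_num)⟩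
  rw [dL_eq] at h1
  exact lt_of_le_of_lt h1 (Pool.Agent.H349R2.Tet.deltaL_K _ (by positivity) le_rfl)

end Pool.Agent.H96.BP
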