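import Pool.Agent.H96.BP.Stm

/-!
# BP-NFA (helper600): the largest tetrahedron spanned by four of five points
-/

set_option autoImplicit false

namespace Pool.Agent.H96.BP

/-- homogeneous coordinates -/
noncomputable def nfa_row (x : V) : Fin 4 → ℝ := Fin.cons 1 x

/-- the matrix of the homogeneous coordinates of four points -/
noncomputable def nfa_mat (q : Fin 4 → V) : Matrix (Fin 4) (Fin 4) ℝ := fun i => nfa_row (q i)

theorem nfa_sum {ι : Type} (s : Finset ι) (w : ι → ℝ) (q : ι → V) :
    ∑ i ∈ s, w i • nfa_row (q i) = (Fin.cons (∑ i ∈ s, w i) (∑ i ∈ s, w i • q i) : Fin 4 → ℝ) := by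
  funext k
  refine Fin.cases ?_ (fun l => ?_) k
  · simp [nfa_row]
  · simp [nfa_row]

theorem nfa_sum_zero {ι : Type} (s : Finset ι) (w : ι → ℝ) (q : ι → V) :
    ∑ i ∈ s, w i • nfa_row (q i) = 0 ↔ s.sum w = 0 ∧ ∑ i ∈ s, w i • q i = 0 := by
  rw [nfa_sum]
  constructor
  · intro h
    constructor
    · have := congrFun h 0
      simpa using this
    · funext l
      have := congrFun h l.succ
      simpa using this
  · rintro ⟨h1, h2⟩
    rw [h1, h2]
    funext k
    refine Fin.cases ?_ (fun l => ?_) k <;> simp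

theorem nfa_ai (q : Fin 4 → V) : AffineIndependent ℝ q ↔ (nfa_mat q).det ≠ 0 := by
  rw [← isUnit_iff_ne_zero, ← Matrix.isUnit_iff_isUnit_det, ← Matrix.linearIndependent_rows_iff_isUnit,
    affineIndependent_iff, linearIndependent_iff']
  constructor
  · intro h s g hg
    have h1 := (nfa_sum_zero s g q).1 hg
    exact h s g h1.1 h1.2
  · intro h s g h1 h2
    exact h s g ((nfa_sum_zero s g q).2 ⟨h1, h2⟩)

theorem nfa_exists (p : Fin 5 → V) (h : (interior (convexHull ℝ (Set.range p))).Nonempty) :
    ∃ g : Fin 4 ↪ Fin 5, (nfa_mat (p ∘ g)).det ≠ 0 := by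
  rw [interior_convexHull_nonempty_iff_affineSpan_eq_top] at h
  obtain ⟨t, ht, b, hb⟩ := AffineBasis.exists_affine_subbasis h
  have hfin : t.Finite := (Set.finite_range p).subset ht
  have : Fintype t := hfin.fintype
  have hcard : Fintype.card t = 4 := by
    rw [b.card_eq_finrank_add_one]
    simp
  let e : Fin 4 ≃ t := (Fintype.equivFinOfCardEq hcard).symm
  have hg : ∀ i : Fin 4, ∃ j : Fin 5, p j = (e i : V) := fun i => ht (e i).2
  choose g hg using hg
  have hinj : Function.Injective g := by
    intro i j hij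
    have h1 : (e i : V) = (e j : V) := by rw [← hg i, ← hg j, hij]
    exact e.injective (Subtype.ext h1)
  refine ⟨⟨g, hinj⟩, (nfa_ai _).1 ?_⟩
  have h2 : p ∘ (⟨g, hinj⟩ : Fin 4 ↪ Fin 5) = b ∘ e := by
    funext i
    rw [hb]
    exact hg i
  rw [h2]
  exact b.ind.comp_embedding e.toEmbedding

theorem t_nfa : S_NFA := by
  intro p hp
  obtain ⟨g₀, hg₀⟩ := nfa_exists p hp
  have : Nonempty (Fin 4 ↪ Fin 5) := ⟨g₀⟩
  obtain ⟨f, hf⟩ := Finite.exists_max (fun g : Fin 4 ↪ Fin 5 => |(nfa_mat (p ∘ g)).det|)
  set A := nfa_mat (p ∘ f) with hA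
  have hpos : 0 < |A.det| := (abs_pos.2 hg₀).trans_le (hf g₀)
  have hdet : A.det ≠ 0 := abs_pos.1 hpos
  -- the fifth point
  have hcard : ∃ c : Fin 5, c ∉ Set.range f := by
    by_contra hcon
    push Not at hcon
    have h1 : Function.Surjective f := hcon
    have := Fintype.card_le_of_surjective f h1
    simp at this
  obtain ⟨c, hc⟩ := hcard
  have hall : ∀ j : Fin 5, j = c ∨ j ∈ Set.range f := by
    intro j
    by_contra hcon
    push Not at hcon
    have h1 : ({c, j} ∪ Finset.univ.map f : Finset (Fin 5)).card ≤ Fintype.card (Fin 5) :=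
      Finset.card_le_univ _
    rw [Finset.card_union_of_disjoint, Finset.card_pair (Ne.symm hcon.1), Finset.card_map] at h1
    · simp at h1
    · rw [Finset.disjoint_left]
      intro x hx hx2
      rw [Finset.mem_map] at hx2
      obtain ⟨y, _, rfl⟩ := hx2
      rw [Finset.mem_insert, Finset.mem_singleton] at hx
      rcases hx with hx | hx
      · exact hc ⟨y, hx⟩
      · exact hcon.2 ⟨y, hx⟩
  -- barycentric coordinates
  have hu : IsUnit A.det := isUnit_iff_ne_zero.2 hdet
  set β : Fin 4 → ℝ := Matrix.vecMul (nfa_row (p c)) A⁻¹ with hβ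
  have h1 : ∑ i, β i • nfa_row ((p ∘ f) i) = nfa_row (p c) := by
    have h2 : Matrix.vecMul β A = nfa_row (p c) := by
      rw [hβ, Matrix.vecMul_vecMul, Matrix.nonsing_inv_mul A hu, Matrix.vecMul_one]
    rw [Matrix.vecMul_eq_sum] at h2
    exact h2
  have h2 := h1
  rw [nfa_sum] at h2
  refine ⟨p ∘ f, p c, β, (nfa_ai _).2 hdet, ?_, ?_, ?_, ?_⟩
  · ext x
    constructor
    · rintro ⟨j, rfl⟩
      rcases hall j with rfl | ⟨i, rfl⟩
      · exact Set.mem_insert _ _
      · exact Set.mem_insert_of_mem _ ⟨i, rfl⟩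
    · rintro (rfl | ⟨i, rfl⟩)
      · exact ⟨c, rfl⟩
      · exact ⟨f i, rfl⟩
  · have := congrFun h2 0
    simpa [nfa_row] using this
  · funext l
    have := congrFun h2 l.succ
    simpa [nfa_row] using this.symm
  · intro i
    have hinj : Function.Injective (Function.update f i c) := by
      intro a b hab
      by_cases ha : a = i
      · by_cases hb : b = i
        · rw [ha, hb]
        · rw [ha, Function.update_self, Function.update_of_ne hb] at hab
          exact absurd ⟨b, hab.symm⟩ hc
      · by_cases hb : b = i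
        · rw [hb, Function.update_self, Function.update_of_ne ha] at hab
          exact absurd ⟨a, hab⟩ hc
        · rw [Function.update_of_ne ha, Function.update_of_ne hb] at hab
          exact f.injective hab
    have h3 := hf ⟨Function.update f i c, hinj⟩
    have h4 : nfa_mat (p ∘ (⟨Function.update f i c, hinj⟩ : Fin 4 ↪ Fin 5)) =
        A.updateRow i (∑ k, β k • A k) := by
      have h5 : ∑ k, β k • A k = nfa_row (p c) := h1
      rw [h5]
      funext a
      by_cases ha : a = i
      · rw [ha, Matrix.updateRow_self]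
        simp [nfa_mat]
      · rw [Matrix.updateRow_ne ha]
        simp [nfa_mat, hA, Function.update_of_ne ha]
    rw [h4, Matrix.det_updateRow_sum, smul_eq_mul, abs_mul] at h3
    by_contra hcon
    push Not at hcon
    nlinarith

end Pool.Agent.H96.BP
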