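import Pool.Agent.H96.BP.Stm

/-!
# The first family of lattices: every nonzero vector is long
-/

set_option autoImplicit false

namespace Pool.Agent.H96.BP

/-- the vector with the coordinates `i, j, k` is short in the seven directions -/
def outa_Sh (x y z i j k : ℝ) : Prop :=
  (-1 < (i * (1 / 2 + 3 / 4 * x + y / 4 - z / 4) + j * (2 / 3 + x / 6 + y / 2) + k * (-1)) ∧ (i * (1 / 2 + 3 / 4 * x + y / 4 - z / 4) + j * (2 / 3 + x / 6 + y / 2) + k * (-1)) < 1) ∧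
  (-1 < (i * (1 / 2 + x / 4 - y / 4 + z / 4) + j * (-(1 / 2) + x / 4 - y / 4 + z / 4) + k * (1 / 6 - 3 / 4 * x + y / 4 + z / 4)) ∧ (i * (1 / 2 + x / 4 - y / 4 + z / 4) + j * (-(1 / 2) + x / 4 - y / 4 + z / 4) + k * (1 / 6 - 3 / 4 * x + y / 4 + z / 4)) < 1) ∧
  (-1 < (i * (-(1 / 3) + x / 3 + y / 2 + z / 2) + j * (1 / 3 - x / 6 + y / 2) + k * (2 / 3 + x / 6 - y / 2)) ∧ (i * (-(1 / 3) + x / 3 + y / 2 + z / 2) + j * (1 / 3 - x / 6 + y / 2) + k * (2 / 3 + x / 6 - y / 2)) < 1) ∧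
  (-(1 + x + y + z) < ((i * (1 / 2 + 3 / 4 * x + y / 4 - z / 4) + j * (2 / 3 + x / 6 + y / 2) + k * (-1)) + (i * (1 / 2 + x / 4 - y / 4 + z / 4) + j * (-(1 / 2) + x / 4 - y / 4 + z / 4) + k * (1 / 6 - 3 / 4 * x + y / 4 + z / 4)) + (i * (-(1 / 3) + x / 3 + y / 2 + z / 2) + j * (1 / 3 - x / 6 + y / 2) + k * (2 / 3 + x / 6 - y / 2))) ∧ ((i * (1 / 2 + 3 / 4 * x + y / 4 - z / 4) + j * (2 / 3 + x / 6 + y / 2) + k * (-1)) + (i * (1 / 2 + x / 4 - y / 4 + z / 4) + j * (-(1 / 2) + x / 4 - y / 4 + z / 4) + k * (1 / 6 - 3 / 4 * x + y / 4 + z / 4)) + (i * (-(1 / 3) + x / 3 + y / 2 + z / 2) + j * (1 / 3 - x / 6 + y / 2) + k * (2 / 3 + x / 6 - y / 2))) < (1 + x + y + z)) ∧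
  (-(1 + x) < ((i * (1 / 2 + 3 / 4 * x + y / 4 - z / 4) + j * (2 / 3 + x / 6 + y / 2) + k * (-1)) + (i * (1 / 2 + x / 4 - y / 4 + z / 4) + j * (-(1 / 2) + x / 4 - y / 4 + z / 4) + k * (1 / 6 - 3 / 4 * x + y / 4 + z / 4))) ∧ ((i * (1 / 2 + 3 / 4 * x + y / 4 - z / 4) + j * (2 / 3 + x / 6 + y / 2) + k * (-1)) + (i * (1 / 2 + x / 4 - y / 4 + z / 4) + j * (-(1 / 2) + x / 4 - y / 4 + z / 4) + k * (1 / 6 - 3 / 4 * x + y / 4 + z / 4))) < (1 + x)) ∧
  (-(1 + y) < ((i * (1 / 2 + 3 / 4 * x + y / 4 - z / 4) + j * (2 / 3 + x / 6 + y / 2) + k * (-1)) + (i * (-(1 / 3) + x / 3 + y / 2 + z / 2) + j * (1 / 3 - x / 6 + y / 2) + k * (2 / 3 + x / 6 - y / 2))) ∧ ((i * (1 / 2 + 3 / 4 * x + y / 4 - z / 4) + j * (2 / 3 + x / 6 + y / 2) + k * (-1)) + (i * (-(1 / 3) + x / 3 + y / 2 + z / 2) + j * (1 / 3 - x / 6 + y / 2) + k * (2 / 3 + x / 6 - y / 2))) < (1 + y)) ∧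
  (-(1 + z) < ((i * (1 / 2 + x / 4 - y / 4 + z / 4) + j * (-(1 / 2) + x / 4 - y / 4 + z / 4) + k * (1 / 6 - 3 / 4 * x + y / 4 + z / 4)) + (i * (-(1 / 3) + x / 3 + y / 2 + z / 2) + j * (1 / 3 - x / 6 + y / 2) + k * (2 / 3 + x / 6 - y / 2))) ∧ ((i * (1 / 2 + x / 4 - y / 4 + z / 4) + j * (-(1 / 2) + x / 4 - y / 4 + z / 4) + k * (1 / 6 - 3 / 4 * x + y / 4 + z / 4)) + (i * (-(1 / 3) + x / 3 + y / 2 + z / 2) + j * (1 / 3 - x / 6 + y / 2) + k * (2 / 3 + x / 6 - y / 2))) < (1 + z))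

theorem outa_neg {x y z i j k : ℝ} (h : outa_Sh x y z i j k) : outa_Sh x y z (-i) (-j) (-k) := by
  obtain ⟨⟨a1, b1⟩, ⟨a2, b2⟩, ⟨a3, b3⟩, ⟨a4, b4⟩, ⟨a5, b5⟩, ⟨a6, b6⟩, ⟨a7, b7⟩⟩ := h
  refine ⟨⟨?_, ?_⟩, ⟨?_, ?_⟩, ⟨?_, ?_⟩, ⟨?_, ?_⟩, ⟨?_, ?_⟩, ⟨?_, ?_⟩, ⟨?_, ?_⟩⟩
  · linarith only [b1]
  · linarith only [a1]
  · linarith only [b2]
  · linarith only [a2]
  · linarith only [b3]
  · linarith only [a3]
  · linarith only [b4]
  · linarith only [a4]
  · linarith only [b5]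
  · linarith only [a5]
  · linarith only [b6]
  · linarith only [a6]
  · linarith only [b7]
  · linarith only [a7]

/- the determinant is positive -/
theorem outa_det (x y z : ℝ) (hx : 0 ≤ x) (hy : 0 ≤ y) (hz : 0 ≤ z) (ht : 0 ≤ (1 - x - y - z)) : 0 < dA x y z := by
  unfold dA
  nlinarith [mul_nonneg hx hy, mul_nonneg hx hz, mul_nonneg hy hz, mul_nonneg hx ht, mul_nonneg hy ht, mul_nonneg hz ht, mul_nonneg (mul_nonneg hx hy) hz, mul_nonneg (mul_nonneg hx hx) hx, mul_nonneg (mul_nonneg hx hx) ht, mul_nonneg (mul_nonneg hy hz) ht, mul_nonneg (mul_nonneg hy hz) hx, mul_nonneg (mul_nonneg hx hz) ht, mul_nonneg (mul_nonneg hx hx) hz, mul_nonneg (mul_nonneg hx hx) hy, mul_nonneg (mul_nonneg hy hz) hy, mul_nonneg (mul_nonneg hy hz) hz]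

theorem outa_bi (x y z : ℝ) (hx : 0 ≤ x) (hy : 0 ≤ y) (hz : 0 ≤ z) (ht : 0 ≤ (1 - x - y - z)) (i j k : ℝ)
    (h : outa_Sh x y z i j k) : i < 2 := by
  obtain ⟨⟨a0, b0⟩, ⟨a1, b1⟩, ⟨a2, b2⟩, ⟨aS, bS⟩, ⟨a01, b01⟩, ⟨a02, b02⟩, ⟨a12, b12⟩⟩ := h
  by_contra hi
  push Not at hi
  have key := mul_nonneg (sub_nonneg.2 hi) (outa_det x y z hx hy hz ht).le
  unfold dA at key
  have p0 := mul_nonneg (mul_nonneg ht hx) (sub_nonneg.2 b0.le)
  have p1 := mul_nonneg (mul_nonneg hx hx) (sub_nonneg.2 a0.le)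
  have p2 := mul_nonneg (mul_nonneg ht ht) (sub_nonneg.2 b1.le)
  have p3 := mul_nonneg (mul_nonneg ht hx) (sub_nonneg.2 b1.le)
  have p4 := mul_nonneg (mul_nonneg ht hy) (sub_nonneg.2 b1.le)
  have p5 := mul_nonneg (mul_nonneg ht hz) (sub_nonneg.2 b1.le)
  have p6 := mul_nonneg (mul_nonneg hx hx) (sub_nonneg.2 b1.le)
  have p7 := mul_nonneg (mul_nonneg hx hy) (sub_nonneg.2 b1.le)
  have p8 := mul_nonneg (mul_nonneg hx hz) (sub_nonneg.2 b1.le)
  have p9 := mul_nonneg (mul_nonneg hy hy) (sub_nonneg.2 b1.le)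
  have p10 := mul_nonneg (mul_nonneg hy hz) (sub_nonneg.2 b1.le)
  have p11 := mul_nonneg (mul_nonneg hz hz) (sub_nonneg.2 b1.le)
  have p12 := mul_nonneg (mul_nonneg ht ht) (sub_nonneg.2 bS.le)
  have p13 := mul_nonneg (mul_nonneg ht hx) (sub_nonneg.2 bS.le)
  have p14 := mul_nonneg (mul_nonneg ht hy) (sub_nonneg.2 bS.le)
  have p15 := mul_nonneg (mul_nonneg ht hz) (sub_nonneg.2 bS.le)
  have p16 := mul_nonneg (mul_nonneg hx hx) (sub_nonneg.2 bS.le)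
  have p17 := mul_nonneg (mul_nonneg hx hy) (sub_nonneg.2 bS.le)
  have p18 := mul_nonneg (mul_nonneg hx hz) (sub_nonneg.2 bS.le)
  have p19 := mul_nonneg (mul_nonneg hy hy) (sub_nonneg.2 bS.le)
  have p20 := mul_nonneg (mul_nonneg hy hz) (sub_nonneg.2 bS.le)
  have p21 := mul_nonneg (mul_nonneg hz hz) (sub_nonneg.2 bS.le)
  have p22 := mul_nonneg (mul_nonneg hx hy) (sub_nonneg.2 aS.le)
  have p23 := mul_nonneg (mul_nonneg hy hz) (sub_nonneg.2 aS.le)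
  have p24 := mul_nonneg (mul_nonneg ht ht) (sub_nonneg.2 b01.le)
  have p25 := mul_nonneg (mul_nonneg ht hy) (sub_nonneg.2 b01.le)
  have p26 := mul_nonneg (mul_nonneg ht hz) (sub_nonneg.2 b01.le)
  have p27 := mul_nonneg (mul_nonneg hx hy) (sub_nonneg.2 b01.le)
  have p28 := mul_nonneg (mul_nonneg hy hy) (sub_nonneg.2 b01.le)
  have p29 := mul_nonneg (mul_nonneg hy hz) (sub_nonneg.2 b01.le)
  have p30 := mul_nonneg (mul_nonneg hz hz) (sub_nonneg.2 b01.le)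
  have p31 := mul_nonneg (mul_nonneg ht hx) (sub_nonneg.2 a01.le)
  have p32 := mul_nonneg (mul_nonneg ht hz) (sub_nonneg.2 a01.le)
  have p33 := mul_nonneg (mul_nonneg ht hz) (sub_nonneg.2 b02.le)
  have p34 := mul_nonneg (mul_nonneg ht hx) (sub_nonneg.2 a02.le)
  have p35 := mul_nonneg (mul_nonneg ht hz) (sub_nonneg.2 a02.le)
  have p36 := mul_nonneg (mul_nonneg hx hx) (sub_nonneg.2 a02.le)
  have p37 := mul_nonneg (mul_nonneg hx hz) (sub_nonneg.2 a02.le)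
  have p38 := mul_nonneg (mul_nonneg hy hz) (sub_nonneg.2 a02.le)
  have p39 := mul_nonneg (mul_nonneg hz hz) (sub_nonneg.2 a02.le)
  have p40 := mul_nonneg (mul_nonneg ht ht) (sub_nonneg.2 b12.le)
  have p41 := mul_nonneg (mul_nonneg ht hx) (sub_nonneg.2 b12.le)
  have p42 := mul_nonneg (mul_nonneg ht hy) (sub_nonneg.2 b12.le)
  have p43 := mul_nonneg (mul_nonneg hx hx) (sub_nonneg.2 b12.le)
  have p44 := mul_nonneg (mul_nonneg hx hy) (sub_nonneg.2 b12.le)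
  have p45 := mul_nonneg (mul_nonneg hx hz) (sub_nonneg.2 b12.le)
  have p46 := mul_nonneg (mul_nonneg hy hy) (sub_nonneg.2 b12.le)
  have p47 := mul_nonneg (mul_nonneg ht hz) (sub_nonneg.2 a12.le)
  have p48 := mul_nonneg (mul_nonneg hx hz) (sub_nonneg.2 a12.le)
  linarith

theorem outa_bj (x y z : ℝ) (hx : 0 ≤ x) (hy : 0 ≤ y) (hz : 0 ≤ z) (ht : 0 ≤ (1 - x - y - z)) (i j k : ℝ)
    (h : outa_Sh x y z i j k) : j < 3 := by
  obtain ⟨⟨a0, b0⟩, ⟨a1, b1⟩, ⟨a2, b2⟩, ⟨aS, bS⟩, ⟨a01, b01⟩, ⟨a02, b02⟩, ⟨a12, b12⟩⟩ := h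
  by_contra hi
  push Not at hi
  have key := mul_nonneg (sub_nonneg.2 hi) (outa_det x y z hx hy hz ht).le
  unfold dA at key
  have p0 := mul_nonneg (mul_nonneg ht hy) (sub_nonneg.2 b0.le)
  have p1 := mul_nonneg (mul_nonneg hx hx) (sub_nonneg.2 b0.le)
  have p2 := mul_nonneg (mul_nonneg ht hx) (sub_nonneg.2 a1.le)
  have p3 := mul_nonneg (mul_nonneg hx hx) (sub_nonneg.2 a1.le)
  have p4 := mul_nonneg (mul_nonneg hx hy) (sub_nonneg.2 a1.le)
  have p5 := mul_nonneg (mul_nonneg hx hz) (sub_nonneg.2 a1.le)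
  have p6 := mul_nonneg (mul_nonneg ht ht) (sub_nonneg.2 b2.le)
  have p7 := mul_nonneg (mul_nonneg ht hx) (sub_nonneg.2 b2.le)
  have p8 := mul_nonneg (mul_nonneg ht hy) (sub_nonneg.2 b2.le)
  have p9 := mul_nonneg (mul_nonneg ht hz) (sub_nonneg.2 b2.le)
  have p10 := mul_nonneg (mul_nonneg hx hz) (sub_nonneg.2 b2.le)
  have p11 := mul_nonneg (mul_nonneg hy hy) (sub_nonneg.2 b2.le)
  have p12 := mul_nonneg (mul_nonneg hy hz) (sub_nonneg.2 b2.le)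
  have p13 := mul_nonneg (mul_nonneg hz hz) (sub_nonneg.2 b2.le)
  have p14 := mul_nonneg (mul_nonneg ht ht) (sub_nonneg.2 bS.le)
  have p15 := mul_nonneg (mul_nonneg ht hy) (sub_nonneg.2 bS.le)
  have p16 := mul_nonneg (mul_nonneg ht hz) (sub_nonneg.2 bS.le)
  have p17 := mul_nonneg (mul_nonneg hx hy) (sub_nonneg.2 bS.le)
  have p18 := mul_nonneg (mul_nonneg hy hz) (sub_nonneg.2 bS.le)
  have p19 := mul_nonneg (mul_nonneg hz hz) (sub_nonneg.2 bS.le)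
  have p20 := mul_nonneg (mul_nonneg ht hy) (sub_nonneg.2 aS.le)
  have p21 := mul_nonneg (mul_nonneg hx hy) (sub_nonneg.2 aS.le)
  have p22 := mul_nonneg (mul_nonneg hx hz) (sub_nonneg.2 aS.le)
  have p23 := mul_nonneg (mul_nonneg hy hy) (sub_nonneg.2 aS.le)
  have p24 := mul_nonneg (mul_nonneg ht hz) (sub_nonneg.2 b01.le)
  have p25 := mul_nonneg (mul_nonneg ht ht) (sub_nonneg.2 a01.le)
  have p26 := mul_nonneg (mul_nonneg ht hy) (sub_nonneg.2 a01.le)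
  have p27 := mul_nonneg (mul_nonneg ht hz) (sub_nonneg.2 a01.le)
  have p28 := mul_nonneg (mul_nonneg hx hy) (sub_nonneg.2 a01.le)
  have p29 := mul_nonneg (mul_nonneg hy hy) (sub_nonneg.2 a01.le)
  have p30 := mul_nonneg (mul_nonneg hy hz) (sub_nonneg.2 a01.le)
  have p31 := mul_nonneg (mul_nonneg hz hz) (sub_nonneg.2 a01.le)
  have p32 := mul_nonneg (mul_nonneg ht ht) (sub_nonneg.2 b02.le)
  have p33 := mul_nonneg (mul_nonneg ht hx) (sub_nonneg.2 b02.le)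
  have p34 := mul_nonneg (mul_nonneg ht hy) (sub_nonneg.2 b02.le)
  have p35 := mul_nonneg (mul_nonneg ht hz) (sub_nonneg.2 b02.le)
  have p36 := mul_nonneg (mul_nonneg hx hx) (sub_nonneg.2 b02.le)
  have p37 := mul_nonneg (mul_nonneg hx hy) (sub_nonneg.2 b02.le)
  have p38 := mul_nonneg (mul_nonneg hx hz) (sub_nonneg.2 b02.le)
  have p39 := mul_nonneg (mul_nonneg hy hy) (sub_nonneg.2 b02.le)
  have p40 := mul_nonneg (mul_nonneg hy hz) (sub_nonneg.2 b02.le)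
  have p41 := mul_nonneg (mul_nonneg hz hz) (sub_nonneg.2 b02.le)
  have p42 := mul_nonneg (mul_nonneg ht hx) (sub_nonneg.2 a02.le)
  have p43 := mul_nonneg (mul_nonneg ht hz) (sub_nonneg.2 a02.le)
  have p44 := mul_nonneg (mul_nonneg ht hx) (sub_nonneg.2 b12.le)
  have p45 := mul_nonneg (mul_nonneg hx hy) (sub_nonneg.2 b12.le)
  have p46 := mul_nonneg (mul_nonneg hx hz) (sub_nonneg.2 a12.le)
  have p47 := (mul_nonneg (mul_nonneg ht ht) hx)
  linarith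

theorem outa_bk (x y z : ℝ) (hx : 0 ≤ x) (hy : 0 ≤ y) (hz : 0 ≤ z) (ht : 0 ≤ (1 - x - y - z)) (i j k : ℝ)
    (h : outa_Sh x y z i j k) : k < 2 := by
  obtain ⟨⟨a0, b0⟩, ⟨a1, b1⟩, ⟨a2, b2⟩, ⟨aS, bS⟩, ⟨a01, b01⟩, ⟨a02, b02⟩, ⟨a12, b12⟩⟩ := h
  by_contra hi
  push Not at hi
  have key := mul_nonneg (sub_nonneg.2 hi) (outa_det x y z hx hy hz ht).le
  unfold dA at key
  have p0 := mul_nonneg (mul_nonneg ht hz) (sub_nonneg.2 a0.le)
  have p1 := mul_nonneg (mul_nonneg hx hy) (sub_nonneg.2 a0.le)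
  have p2 := mul_nonneg (mul_nonneg hx hz) (sub_nonneg.2 a0.le)
  have p3 := mul_nonneg (mul_nonneg hy hy) (sub_nonneg.2 a0.le)
  have p4 := mul_nonneg (mul_nonneg hy hz) (sub_nonneg.2 a0.le)
  have p5 := mul_nonneg (mul_nonneg ht ht) (sub_nonneg.2 b2.le)
  have p6 := mul_nonneg (mul_nonneg ht hx) (sub_nonneg.2 b2.le)
  have p7 := mul_nonneg (mul_nonneg ht hy) (sub_nonneg.2 b2.le)
  have p8 := mul_nonneg (mul_nonneg ht hz) (sub_nonneg.2 b2.le)
  have p9 := mul_nonneg (mul_nonneg hx hx) (sub_nonneg.2 b2.le)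
  have p10 := mul_nonneg (mul_nonneg hx hy) (sub_nonneg.2 b2.le)
  have p11 := mul_nonneg (mul_nonneg hx hz) (sub_nonneg.2 b2.le)
  have p12 := mul_nonneg (mul_nonneg hy hy) (sub_nonneg.2 b2.le)
  have p13 := mul_nonneg (mul_nonneg hy hz) (sub_nonneg.2 b2.le)
  have p14 := mul_nonneg (mul_nonneg hz hz) (sub_nonneg.2 b2.le)
  have p15 := mul_nonneg (mul_nonneg ht ht) (sub_nonneg.2 bS.le)
  have p16 := mul_nonneg (mul_nonneg ht hx) (sub_nonneg.2 bS.le)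
  have p17 := mul_nonneg (mul_nonneg ht hy) (sub_nonneg.2 bS.le)
  have p18 := mul_nonneg (mul_nonneg ht hz) (sub_nonneg.2 bS.le)
  have p19 := mul_nonneg (mul_nonneg hx hx) (sub_nonneg.2 bS.le)
  have p20 := mul_nonneg (mul_nonneg hx hz) (sub_nonneg.2 bS.le)
  have p21 := mul_nonneg (mul_nonneg hy hz) (sub_nonneg.2 bS.le)
  have p22 := mul_nonneg (mul_nonneg ht ht) (sub_nonneg.2 aS.le)
  have p23 := mul_nonneg (mul_nonneg ht hz) (sub_nonneg.2 aS.le)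
  have p24 := mul_nonneg (mul_nonneg hx hz) (sub_nonneg.2 aS.le)
  have p25 := mul_nonneg (mul_nonneg ht hy) (sub_nonneg.2 b01.le)
  have p26 := mul_nonneg (mul_nonneg ht ht) (sub_nonneg.2 a01.le)
  have p27 := mul_nonneg (mul_nonneg ht hx) (sub_nonneg.2 a01.le)
  have p28 := mul_nonneg (mul_nonneg ht hy) (sub_nonneg.2 a01.le)
  have p29 := mul_nonneg (mul_nonneg ht hz) (sub_nonneg.2 a01.le)
  have p30 := mul_nonneg (mul_nonneg hx hx) (sub_nonneg.2 a01.le)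
  have p31 := mul_nonneg (mul_nonneg hx hy) (sub_nonneg.2 a01.le)
  have p32 := mul_nonneg (mul_nonneg hy hy) (sub_nonneg.2 a01.le)
  have p33 := mul_nonneg (mul_nonneg hy hz) (sub_nonneg.2 a01.le)
  have p34 := mul_nonneg (mul_nonneg hz hz) (sub_nonneg.2 a01.le)
  have p35 := mul_nonneg (mul_nonneg hx hz) (sub_nonneg.2 b02.le)
  have p36 := mul_nonneg (mul_nonneg ht hy) (sub_nonneg.2 a02.le)
  have p37 := mul_nonneg (mul_nonneg ht ht) (sub_nonneg.2 b12.le)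
  have p38 := mul_nonneg (mul_nonneg ht hx) (sub_nonneg.2 b12.le)
  have p39 := mul_nonneg (mul_nonneg ht hy) (sub_nonneg.2 b12.le)
  have p40 := mul_nonneg (mul_nonneg ht hz) (sub_nonneg.2 b12.le)
  have p41 := mul_nonneg (mul_nonneg hx hx) (sub_nonneg.2 b12.le)
  have p42 := mul_nonneg (mul_nonneg hx hy) (sub_nonneg.2 b12.le)
  have p43 := mul_nonneg (mul_nonneg hx hz) (sub_nonneg.2 b12.le)
  have p44 := mul_nonneg (mul_nonneg hy hy) (sub_nonneg.2 b12.le)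
  have p45 := mul_nonneg (mul_nonneg hy hz) (sub_nonneg.2 b12.le)
  have p46 := mul_nonneg (mul_nonneg hz hz) (sub_nonneg.2 b12.le)
  have p47 := mul_nonneg (mul_nonneg ht hy) (sub_nonneg.2 a12.le)
  have p48 := mul_nonneg (mul_nonneg hz hz) (sub_nonneg.2 a12.le)
  linarith

theorem outa_c (x y z : ℝ) (hx : 0 ≤ x) (hy : 0 ≤ y) (hz : 0 ≤ z) (ht : 0 ≤ (1 - x - y - z)) (i j k : ℝ)
    (hi : i = -1 ∨ i = 0 ∨ i = 1) (hj : j = -2 ∨ j = -1 ∨ j = 0 ∨ j = 1 ∨ j = 2) (hk : k = -1 ∨ k = 0 ∨ k = 1)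
    (hne : ¬ (i = 0 ∧ j = 0 ∧ k = 0)) (h : outa_Sh x y z i j k) : False := by
  obtain ⟨⟨a0, b0⟩, ⟨a1, b1⟩, ⟨a2, b2⟩, ⟨aS, bS⟩, ⟨a01, b01⟩, ⟨a02, b02⟩, ⟨a12, b12⟩⟩ := h
  rcases hi with rfl | rfl | rfl
  · rcases hj with rfl | rfl | rfl | rfl | rfl
    · rcases hk with rfl | rfl | rfl
      · linarith only [hx, hy, hz, ht, a2]
      · linarith only [hx, hy, hz, ht, a0]
      · linarith only [hx, hy, hz, ht, a0]
    · rcases hk with rfl | rfl | rfl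
      · linarith only [hx, hy, hz, ht, aS]
      · linarith only [hx, hy, hz, ht, a01]
      · linarith only [hx, hy, hz, ht, a0]
    · rcases hk with rfl | rfl | rfl
      · linarith only [hx, hy, hz, ht, a12]
      · linarith only [hx, hy, hz, ht, a01]
      · linarith only [hx, hy, hz, ht, a0]
    · rcases hk with rfl | rfl | rfl
      · linarith
      · linarith only [hx, hy, hz, ht, a1]
      · linarith only [hx, hy, hz, ht, a01]
    · rcases hk with rfl | rfl | rfl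
      · linarith only [hx, hy, hz, ht, b0]
      · linarith only [hx, hy, hz, ht, a1]
      · linarith only [hx, hy, hz, ht, b2]
  · rcases hj with rfl | rfl | rfl | rfl | rfl
    · rcases hk with rfl | rfl | rfl
      · linarith only [hx, hy, hz, ht, a2]
      · linarith only [hx, hy, hz, ht, a0]
      · linarith only [hx, hy, hz, ht, a0]
    · rcases hk with rfl | rfl | rfl
      · linarith only [hx, hy, hz, ht, a2]
      · linarith only [hx, hy, hz, ht, a02]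
      · linarith only [hx, hy, hz, ht, a0]
    · rcases hk with rfl | rfl | rfl
      · linarith only [hx, hy, hz, ht, b0]
      · exact hne ⟨rfl, rfl, rfl⟩
      · linarith only [hx, hy, hz, ht, a0]
    · rcases hk with rfl | rfl | rfl
      · linarith only [hx, hy, hz, ht, b0]
      · linarith only [hx, hy, hz, ht, b02]
      · linarith only [hx, hy, hz, ht, b2]
    · rcases hk with rfl | rfl | rfl
      · linarith only [hx, hy, hz, ht, b0]
      · linarith only [hx, hy, hz, ht, b0]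
      · linarith only [hx, hy, hz, ht, b2]
  · rcases hj with rfl | rfl | rfl | rfl | rfl
    · rcases hk with rfl | rfl | rfl
      · linarith only [hx, hy, hz, ht, a2]
      · linarith only [hx, hy, hz, ht, b1]
      · linarith only [hx, hy, hz, ht, a0]
    · rcases hk with rfl | rfl | rfl
      · linarith only [hx, hy, hz, ht, b01]
      · linarith only [hx, hy, hz, ht, b1]
      · linarith
    · rcases hk with rfl | rfl | rfl
      · linarith only [hx, hy, hz, ht, b0]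
      · linarith only [hx, hy, hz, ht, b01]
      · linarith only [hx, hy, hz, ht, b12]
    · rcases hk with rfl | rfl | rfl
      · linarith only [hx, hy, hz, ht, b0]
      · linarith only [hx, hy, hz, ht, b01]
      · linarith only [hx, hy, hz, ht, bS]
    · rcases hk with rfl | rfl | rfl
      · linarith only [hx, hy, hz, ht, b0]
      · linarith only [hx, hy, hz, ht, b0]
      · linarith only [hx, hy, hz, ht, b2]

theorem t_outa : S_OUTA := by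
  intro x y z hx hy hz hle i j k hne
  have ht : 0 ≤ (1 - x - y - z) := by linarith
  by_contra hout
  unfold Out at hout
  push Not at hout
  obtain ⟨c0, c1, c2, c3, c4, c5, c6⟩ := hout
  simp only [fA, gA, hA, Matrix.cons_val_zero, Matrix.cons_val_one, Matrix.cons_val] at c0 c1 c2 c3 c4 c5 c6
  have h : outa_Sh x y z (i : ℝ) (j : ℝ) (k : ℝ) := by
    refine ⟨abs_lt.1 ?_, abs_lt.1 ?_, abs_lt.1 ?_, abs_lt.1 ?_, abs_lt.1 ?_, abs_lt.1 ?_, abs_lt.1 ?_⟩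
    · exact c0
    · exact c1
    · exact c2
    · exact c3
    · exact c4
    · exact c5
    · exact c6
  have hn := outa_neg h
  have ui := outa_bi x y z hx hy hz ht _ _ _ h
  have li := outa_bi x y z hx hy hz ht _ _ _ hn
  have uj := outa_bj x y z hx hy hz ht _ _ _ h
  have lj := outa_bj x y z hx hy hz ht _ _ _ hn
  have uk := outa_bk x y z hx hy hz ht _ _ _ h
  have lk := outa_bk x y z hx hy hz ht _ _ _ hn
  have Ui : i < 2 := by exact_mod_cast ui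
  have Li : -i < 2 := by exact_mod_cast li
  have Uj : j < 3 := by exact_mod_cast uj
  have Lj : -j < 3 := by exact_mod_cast lj
  have Uk : k < 2 := by exact_mod_cast uk
  have Lk : -k < 2 := by exact_mod_cast lk
  have Zi : i = -1 ∨ i = 0 ∨ i = 1 := by omega
  have Ri : (i : ℝ) = -1 ∨ (i : ℝ) = 0 ∨ (i : ℝ) = 1 := by exact_mod_cast Zi
  have Zj : j = -2 ∨ j = -1 ∨ j = 0 ∨ j = 1 ∨ j = 2 := by omega
  have Rj : (j : ℝ) = -2 ∨ (j : ℝ) = -1 ∨ (j : ℝ) = 0 ∨ (j : ℝ) = 1 ∨ (j : ℝ) = 2 := by exact_mod_cast Zj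
  have Zk : k = -1 ∨ k = 0 ∨ k = 1 := by omega
  have Rk : (k : ℝ) = -1 ∨ (k : ℝ) = 0 ∨ (k : ℝ) = 1 := by exact_mod_cast Zk
  exact outa_c x y z hx hy hz ht _ _ _ Ri Rj Rk (by exact_mod_cast hne) h

end Pool.Agent.H96.BP
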