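import Pool.Agent.H96.BP.Stm

/-!
# Sign patterns of four barycentric coordinates (helper969, for project BP of helper96)
-/

set_option autoImplicit false

namespace Pool.Agent.H96.BP

theorem pat_one (β : Fin 4 → ℝ) (τ : Equiv.Perm (Fin 4)) (i j k l : Fin 4) (h0 : τ 0 = i)
    (h1 : τ 1 = j) (h2 : τ 2 = k) (h3 : τ 3 = l) (a : β i < 0) (b : 0 ≤ β j) (c : 0 ≤ β k)
    (d : 0 ≤ β l) : ∃ τ : Equiv.Perm (Fin 4),
    (∀ i, 0 ≤ β (τ i)) ∨ (β (τ 0) < 0 ∧ 0 ≤ β (τ 1) ∧ 0 ≤ β (τ 2) ∧ 0 ≤ β (τ 3)) ∨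
    (0 ≤ β (τ 0) ∧ β (τ 1) < 0 ∧ β (τ 2) < 0 ∧ 0 ≤ β (τ 3)) := by
  refine ⟨τ, Or.inr (Or.inl ?_)⟩
  rw [h0, h1, h2, h3]
  exact ⟨a, b, c, d⟩

theorem pat_two (β : Fin 4 → ℝ) (τ : Equiv.Perm (Fin 4)) (i j k l : Fin 4) (h0 : τ 0 = i)
    (h1 : τ 1 = j) (h2 : τ 2 = k) (h3 : τ 3 = l) (a : 0 ≤ β i) (b : β j < 0) (c : β k < 0)
    (d : 0 ≤ β l) : ∃ τ : Equiv.Perm (Fin 4),
    (∀ i, 0 ≤ β (τ i)) ∨ (β (τ 0) < 0 ∧ 0 ≤ β (τ 1) ∧ 0 ≤ β (τ 2) ∧ 0 ≤ β (τ 3)) ∨
    (0 ≤ β (τ 0) ∧ β (τ 1) < 0 ∧ β (τ 2) < 0 ∧ 0 ≤ β (τ 3)) := by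
  refine ⟨τ, Or.inr (Or.inr ?_)⟩
  rw [h0, h1, h2, h3]
  exact ⟨a, b, c, d⟩

theorem t_pat : S_PAT := by
  intro β hs hb
  rw [Fin.sum_univ_four] at hs
  have b0 := abs_le.1 (hb 0)
  have b1 := abs_le.1 (hb 1)
  have b2 := abs_le.1 (hb 2)
  have b3 := abs_le.1 (hb 3)
  rcases lt_or_ge (β 0) 0 with a0 | a0
  · rcases lt_or_ge (β 1) 0 with a1 | a1
    · rcases lt_or_ge (β 2) 0 with a2 | a2
      · exfalso
        linarith [b3.2]
      · rcases lt_or_ge (β 3) 0 with a3 | a3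
        · exfalso
          linarith [b2.2]
        · exact pat_two β (Equiv.swap 0 2) 2 1 0 3 (by decide) (by decide) (by decide) (by decide)
            a2 a1 a0 a3
    · rcases lt_or_ge (β 2) 0 with a2 | a2
      · rcases lt_or_ge (β 3) 0 with a3 | a3
        · exfalso
          linarith [b1.2]
        · exact pat_two β (Equiv.swap 0 1) 1 0 2 3 (by decide) (by decide) (by decide) (by decide)
            a1 a0 a2 a3
      · rcases lt_or_ge (β 3) 0 with a3 | a3
        · exact pat_two β (Equiv.swap 0 1 * Equiv.swap 2 3) 1 0 3 2 (by decide) (by decide)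
            (by decide) (by decide) a1 a0 a3 a2
        · exact pat_one β 1 0 1 2 3 (by decide) (by decide) (by decide) (by decide) a0 a1 a2 a3
  · rcases lt_or_ge (β 1) 0 with a1 | a1
    · rcases lt_or_ge (β 2) 0 with a2 | a2
      · rcases lt_or_ge (β 3) 0 with a3 | a3
        · exfalso
          linarith [b0.2]
        · exact pat_two β 1 0 1 2 3 (by decide) (by decide) (by decide) (by decide) a0 a1 a2 a3
      · rcases lt_or_ge (β 3) 0 with a3 | a3
        · exact pat_two β (Equiv.swap 2 3) 0 1 3 2 (by decide) (by decide) (by decide) (by decide)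
            a0 a1 a3 a2
        · exact pat_one β (Equiv.swap 0 1) 1 0 2 3 (by decide) (by decide) (by decide) (by decide)
            a1 a0 a2 a3
    · rcases lt_or_ge (β 2) 0 with a2 | a2
      · rcases lt_or_ge (β 3) 0 with a3 | a3
        · exact pat_two β (Equiv.swap 1 3) 0 3 2 1 (by decide) (by decide) (by decide) (by decide)
            a0 a3 a2 a1
        · exact pat_one β (Equiv.swap 0 2) 2 1 0 3 (by decide) (by decide) (by decide) (by decide)
            a2 a1 a0 a3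
      · rcases lt_or_ge (β 3) 0 with a3 | a3
        · exact pat_one β (Equiv.swap 0 3) 3 1 2 0 (by decide) (by decide) (by decide) (by decide)
            a3 a1 a2 a0
        · refine ⟨1, Or.inl fun i => ?_⟩
          rw [Equiv.Perm.one_apply]
          fin_cases i
          · exact a0
          · exact a1
          · exact a2
          · exact a3

end Pool.Agent.H96.BP
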