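import Pool.Agent.H96.BP.Stm2
import Pool.Graph.R_seed8.H349R2.Tet.Vol

/-!
# BP-RAT (helper825): affine maps and ratios of volumes
-/

set_option autoImplicit false

namespace Pool.Agent.H96.BP

open MeasureTheory

theorem rat_comb {K : Set V} (hK : Convex ℝ K) {b : V} (hb : b ∈ K)
    (he : ∀ n : Fin 3, (Pi.single n 1 : V) ∈ K) {y : V} (h0 : 0 ≤ y 0) (h1 : 0 ≤ y 1)
    (h2 : 0 ≤ y 2) (hs : y 0 + y 1 + y 2 ≤ 1) : (1 - (y 0 + y 1 + y 2)) • b + y ∈ K := by
  have hy : ∀ m, 0 ≤ y m := by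
    intro m
    fin_cases m
    · exact h0
    · exact h1
    · exact h2
  have hsum : ∑ m, y m = y 0 + y 1 + y 2 := Fin.sum_univ_three _
  have h := hK.sum_mem (t := Finset.univ) (w := fun i : Option (Fin 3) => i.elim (1 - ∑ m, y m) y)
    (z := fun i : Option (Fin 3) => i.elim b (fun m => (Pi.single m 1 : V))) (by
      rintro (_ | i) _
      · show 0 ≤ 1 - ∑ m, y m
        rw [hsum]
        linarith
      · exact hy i) (by rw [Fintype.sum_option]; simp) (by
      rintro (_ | i) _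
      · exact hb
      · exact he i)
  rw [Fintype.sum_option] at h
  have e1 : ∑ m, y m • (Pi.single m 1 : V) = y := by
    ext k
    simp [Finset.sum_apply, Pi.single_apply]
  have h' : (1 - ∑ m, y m) • b + ∑ m, y m • (Pi.single m 1 : V) ∈ K := h
  rwa [e1, hsum] at h'

theorem rat_T4 : T4 = {y : V | 0 ≤ y 0 ∧ 0 ≤ y 1 ∧ 0 ≤ y 2 ∧ y 0 + y 1 + y 2 ≤ 1} := by
  apply Set.Subset.antisymm
  · refine convexHull_min ?_ ?_
    · intro y hy
      rcases hy with rfl | ⟨n, rfl⟩
      · simp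
      · fin_cases n <;> simp
    · rintro x ⟨x0, x1, x2, x3⟩ y ⟨y0, y1, y2, y3⟩ a b ha hb hab
      simp only [Set.mem_ofPred_eq, Pi.add_apply, Pi.smul_apply, smul_eq_mul]
      refine ⟨by positivity, by positivity, by positivity, ?_⟩
      nlinarith
  · rintro y ⟨h0, h1, h2, h3⟩
    have hK : Convex ℝ T4 := convex_convexHull ℝ _
    have h0K : (0 : V) ∈ T4 := subset_convexHull ℝ _ (Set.mem_insert _ _)
    have heK : ∀ n : Fin 3, (Pi.single n 1 : V) ∈ T4 := fun n =>
      subset_convexHull ℝ _ (Set.mem_insert_of_mem _ ⟨n, rfl⟩)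
    have h4 := rat_comb hK h0K heK h0 h1 h2 h3
    rwa [smul_zero, zero_add] at h4

theorem rat_vol : volume T4 = ENNReal.ofReal (1 / 6) := by
  rw [rat_T4]
  have h := Pool.Agent.H349R2.Tet.vol_le 1 zero_le_one
  rw [one_pow] at h
  exact h

theorem rat_img (L : V ≃ₗ[ℝ] V) (t : V) (A : Set V) : volume ((fun x => L x + t) '' A) =
    ENNReal.ofReal |LinearMap.det (L : V →ₗ[ℝ] V)| * volume A := by
  have h : (fun x => L x + t) '' A = (fun x => x + t) '' ((L : V →ₗ[ℝ] V) '' A) := by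
    rw [Set.image_image]
    rfl
  rw [h, Set.image_add_right, measure_preimage_add_right, Measure.addHaar_image_linearMap]

theorem t_rat : S_RAT := by
  intro L t K Δ hK hΔ
  obtain ⟨d, hd⟩ : ∃ d : ℝ, d = |LinearMap.det (L : V →ₗ[ℝ] V)| := ⟨_, rfl⟩
  have hd0 : 0 < d := by
    rw [hd, abs_pos]
    exact (LinearEquiv.isUnit_det' L).ne_zero
  have h1 : ENNReal.ofReal d * volume Δ = ENNReal.ofReal (1 / 6) := by
    rw [hd, ← rat_img L t Δ, hΔ, rat_vol]
  have h2 : d * (volume Δ).toReal = 1 / 6 := by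
    have h3 := congrArg ENNReal.toReal h1
    rw [ENNReal.toReal_mul, ENNReal.toReal_ofReal hd0.le, ENNReal.toReal_ofReal (by norm_num)] at h3
    exact h3
  have h4 : (volume Δ).toReal = 1 / 6 / d := by
    rw [eq_div_iff hd0.ne']
    linarith
  refine ⟨by rw [h4]; positivity, ?_⟩
  rw [rat_img, ← hd, h4]
  have hKf : volume K ≠ ⊤ := hK.measure_lt_top.ne
  have e : (volume K).toReal / (1 / 6 / d) / 6 = d * (volume K).toReal := by
    field_simp
  rw [e, ENNReal.ofReal_mul hd0.le, ENNReal.ofReal_toReal hKf]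

end Pool.Agent.H96.BP
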