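import Pool.Agent.H96.BP.Stm2

set_option autoImplicit false

namespace Pool.Agent.H96.BP

/-- the Bernstein form of the first polynomial -/
theorem sta_A (x y z w : ℝ) (hw : w = 1 - x - y - z) :
    49 / 108 * (1 + x + y + z) - dA x y z * (1 + (x + y + z) / 10) =
      7/360*z*w^6 + 191/720*z^2*w^5 + 1517/1440*z^3*w^4 + 39/20*z^4*w^3 + 1361/720*z^5*w^2 +
      673/720*z^6*w + 269/1440*z^7 + 7/360*y*w^6 + 41/360*y*z*w^5 + 557/480*y*z^2*w^4 +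
      191/48*y*z^3*w^3 + 262/45*y*z^4*w^2 + 187/48*y*z^5*w + 1421/1440*y*z^6 + 191/720*y^2*w^5 +
      557/480*y^2*z*w^4 + 487/120*y^2*z^2*w^3 + 5771/720*y^2*z^3*w^2 + 1721/240*y^2*z^4*w +
      371/160*y^2*z^5 + 1517/1440*y^3*w^4 + 191/48*y^3*z*w^3 + 5771/720*y^3*z^2*w^2 +
      3031/360*y^3*z^3*w + 959/288*y^3*z^4 + 39/20*y^4*w^3 + 262/45*y^4*z*w^2 +
      1721/240*y^4*z^2*w + 959/288*y^4*z^3 + 1361/720*y^5*w^2 + 187/48*y^5*z*w +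
      371/160*y^5*z^2 + 673/720*y^6*w + 1421/1440*y^6*z + 269/1440*y^7 + 7/360*x*w^6 +
      61/360*x*z*w^5 + 211/160*x*z^2*w^4 + 182/45*x*z^3*w^3 + 4049/720*x*z^4*w^2 +
      439/120*x*z^5*w + 437/480*x*z^6 + 71/360*x*y*w^5 + 77/240*x*y*z*w^4 +
      2089/720*x*y*z^2*w^3 + 649/72*x*y*z^3*w^2 + 2309/240*x*y*z^4*w + 2437/720*x*y*z^5 +
      701/480*x*y^2*w^4 + 2297/720*x*y^2*z*w^3 + 283/40*x*y^2*z^2*w^2 + 2573/240*x*y^2*z^3*w +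
      7741/1440*x*y^2*z^4 + 13/3*x*y^3*w^3 + 3457/360*x*y^3*z*w^2 + 529/48*x*y^3*z^2*w +
      2111/360*x*y^3*z^3 + 4261/720*x*y^4*w^2 + 2417/240*x*y^4*z*w + 7961/1440*x*y^4*z^2 +
      457/120*x*y^5*w + 505/144*x*y^5*z + 271/288*x*y^6 + 533/2160*x^2*w^5 + 601/480*x^2*z*w^4 +
      4439/1080*x^2*z^2*w^3 + 799/108*x^2*z^3*w^2 + 4493/720*x^2*z^4*w + 8411/4320*x^2*z^5 +
      1967/1440*x^2*y*w^4 + 3223/1080*x^2*y*z*w^3 + 4493/720*x^2*y*z^2*w^2 +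
      2221/240*x^2*y*z^3*w + 20011/4320*x^2*y*z^4 + 247/54*x^2*y^2*w^3 + 5003/720*x^2*y^2*z*w^2 +
      781/120*x^2*y^2*z^2*w + 9253/2160*x^2*y^2*z^3 + 1751/216*x^2*y^3*w^2 +
      1471/144*x^2*y^3*z*w + 9781/2160*x^2*y^3*z^2 + 1613/240*x^2*y^4*w + 4319/864*x^2*y^4*z +
      8939/4320*x^2*y^5 + 407/480*x^3*w^4 + 3583/1080*x^3*z*w^3 + 2333/360*x^3*z^2*w^2 +
      259/40*x^3*z^3*w + 2129/864*x^3*z^4 + 943/270*x^3*y*w^3 + 314/45*x^3*y*z*w^2 +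
      1729/240*x^3*y*z^2*w + 4111/1080*x^3*y*z^3 + 505/72*x^3*y^2*w^2 + 1859/240*x^3*y^2*z*w +
      413/144*x^3*y^2*z^2 + 421/60*x^3*y^3*w + 4507/1080*x^3*y^3*z + 11437/4320*x^3*y^4 +
      703/540*x^4*w^3 + 2743/720*x^4*z*w^2 + 1091/240*x^4*z^2*w + 1777/864*x^4*z^3 +
      943/240*x^4*y*w^2 + 113/20*x^4*y*z*w + 3847/1440*x^4*y*z^2 + 383/80*x^4*y^2*w +
      447/160*x^4*y^2*z + 9413/4320*x^4*y^3 + 2147/2160*x^5*w^2 + 35/18*x^5*z*w +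
      4847/4320*x^5*z^2 + 79/40*x^5*y*w + 3131/2160*x^5*y*z + 4979/4320*x^5*y^2 + 257/720*x^6*w +
      1513/4320*x^6*z + 1513/4320*x^6*y + 191/4320*x^7 := by
  subst hw
  unfold dA
  ring

/-- the Bernstein form of the second polynomial -/
theorem sta_B (r s w : ℝ) (hw : w = 1 - r - s) :
    49 / 108 * (1 + r + s) - dB r s * (1 + (r + s) / 10) =
      7/360*s*w^3 + 67/360*s^2*w^2 + 197/1080*s^3*w + 1/1080*s^4 + 7/360*r*w^3 + 7/180*r*s*w^2 +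
      37/72*r*s^2*w + 10/27*r*s^3 + 67/360*r^2*w^2 + 37/72*r^2*s*w + 133/180*r^2*s^2 +
      197/1080*r^3*w + 10/27*r^3*s + 1/1080*r^4 := by
  subst hw
  unfold dB
  ring

theorem t_sta : S_STA := by
  constructor
  · intro x y z hx hy hz h
    rw [← sub_nonneg]
    obtain ⟨w, hw⟩ : ∃ w : ℝ, w = 1 - x - y - z := ⟨_, rfl⟩
    have hw0 : 0 ≤ w := by linarith
    rw [sta_A x y z w hw]
    clear hw h
    positivity
  · intro r s hr hs h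
    rw [← sub_nonneg]
    obtain ⟨w, hw⟩ : ∃ w : ℝ, w = 1 - r - s := ⟨_, rfl⟩
    have hw0 : 0 ≤ w := by linarith
    rw [sta_B r s w hw]
    clear hw h
    positivity

end Pool.Agent.H96.BP
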