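import Pool.Agent.H96.BP.Stm
import Pool.Graph.R_seed8.H349R2.Tet.Vol

/-!
# BP-VOLA (helper51): the volume of a union of two tetrahedra
-/

set_option autoImplicit false

namespace Pool.Agent.H96.BP

open MeasureTheory

theorem vola_comb {K : Set V} (hK : Convex ℝ K) {b : V} (hb : b ∈ K)
    (he : ∀ n : Fin 3, (Pi.single n 1 : V) ∈ K) {y : V} (h0 : 0 ≤ y 0) (h1 : 0 ≤ y 1)
    (h2 : 0 ≤ y 2) (hs : y 0 + y 1 + y 2 ≤ 1) : (1 - (y 0 + y 1 + y 2)) • b + y ∈ K := by
  have hy : ∀ m, 0 ≤ y m := by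
    intro m
    fin_cases m
    · exact h0
    · exact h1
    · exact h2
  have hsum : ∑ m, y m = y 0 + y 1 + y 2 := Fin.sum_univ_three _
  have h := hK.sum_mem (t := Finset.univ) (w := fun i : Option (Fin 3) => i.elim (1 - ∑ m, y m) y)
    (z := fun i : Option (Fin 3) => i.elim b (fun m => (Pi.single m 1 : V))) (by
      rintro (_ | i) _
      · show 0 ≤ 1 - ∑ m, y m
        rw [hsum]
        linarith
      · exact hy i) (by rw [Fintype.sum_option]; simp) (by
      rintro (_ | i) _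
      · exact hb
      · exact he i)
  rw [Fintype.sum_option] at h
  have e1 : ∑ m, y m • (Pi.single m 1 : V) = y := by
    ext k
    simp [Finset.sum_apply, Pi.single_apply]
  have h' : (1 - ∑ m, y m) • b + ∑ m, y m • (Pi.single m 1 : V) ∈ K := h
  rwa [e1, hsum] at h'

theorem t_vola : S_VOLA := by
  intro b hb hs
  obtain ⟨u, hu⟩ : ∃ u : ℝ, u = b 0 + b 1 + b 2 - 1 := ⟨_, rfl⟩
  have hu0 : 0 ≤ u := by rw [hu]; linarith
  have hK : Convex ℝ (K5 b) := convex_convexHull ℝ _
  have hbK : b ∈ K5 b := subset_convexHull ℝ _ (Set.mem_insert _ _)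
  have h0K : (0 : V) ∈ K5 b :=
    subset_convexHull ℝ _ (Set.mem_insert_of_mem _ (Set.mem_insert _ _))
  have heK : ∀ n : Fin 3, (Pi.single n 1 : V) ∈ K5 b := fun n =>
    subset_convexHull ℝ _ (Set.mem_insert_of_mem _ (Set.mem_insert_of_mem _ ⟨n, rfl⟩))
  have hA : MeasurableSet {x : V | x 0 + x 1 + x 2 ≤ 1} :=
    measurableSet_le (by fun_prop) measurable_const
  rw [← measure_inter_add_sdiff (K5 b) hA]
  have e : ENNReal.ofReal ((b 0 + b 1 + b 2) / 6) =
      ENNReal.ofReal (1 / 6) + ENNReal.ofReal (u / 6) := by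
    rw [← ENNReal.ofReal_add (by norm_num) (by positivity)]
    congr 1
    rw [hu]
    ring
  rw [e]
  refine add_le_add ?_ ?_
  · have h := Pool.Agent.H349R2.Tet.vol_le 1 zero_le_one
    rw [one_pow] at h
    rw [← h]
    refine measure_mono ?_
    rintro y ⟨h0, h1, h2, h3⟩
    refine ⟨?_, h3⟩
    have h4 := vola_comb hK h0K heK h0 h1 h2 h3
    rwa [smul_zero, zero_add] at h4
  · rcases hu0.eq_or_lt with h | h
    · rw [← h, zero_div, ENNReal.ofReal_zero]
      exact zero_le
    · obtain ⟨M, hM⟩ : ∃ M : Matrix (Fin 3) (Fin 3) ℝ, M = Matrix.of fun i j =>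
        (if i = j then 1 else 0) - b i := ⟨_, rfl⟩
      have hdet : M.det = -u := by
        rw [hM, Matrix.det_fin_three, hu]
        simp only [Matrix.of_apply]
        simp
        ring
      have hval : ∀ y : V, Matrix.toLin' M y = y - (y 0 + y 1 + y 2) • b := by
        intro y
        rw [Matrix.toLin'_apply, hM]
        ext k
        simp only [Matrix.mulVec, dotProduct, Fin.sum_univ_three, Matrix.of_apply, Pi.sub_apply,
          Pi.smul_apply, smul_eq_mul]
        fin_cases k <;> simp <;> ring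
      obtain ⟨S, hS⟩ : ∃ S : Set V, S = {y : V | 0 ≤ y 0 ∧ 0 ≤ y 1 ∧ 0 ≤ y 2 ∧
        y 0 + y 1 + y 2 < 1} := ⟨_, rfl⟩
      have hvS : volume S = ENNReal.ofReal (1 / 6) := by
        have h := Pool.Agent.H349R2.Tet.vol_lt 1 zero_le_one
        rw [one_pow] at h
        rw [hS]
        exact h
      have hvol : volume ((fun x => b + x) '' (Matrix.toLin' M '' S)) = ENNReal.ofReal (u / 6) := by
        rw [Set.image_add_left, measure_preimage_add, Measure.addHaar_image_linearMap,
          LinearMap.det_toLin', hdet, hvS, abs_neg, abs_of_pos h, ← ENNReal.ofReal_mul h.le]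
        congr 1
        ring
      rw [← hvol]
      refine measure_mono ?_
      rintro x ⟨z, ⟨y, hy, rfl⟩, rfl⟩
      rw [hS] at hy
      obtain ⟨h0, h1, h2, h3⟩ := hy
      have e1 : b + Matrix.toLin' M y = (1 - (y 0 + y 1 + y 2)) • b + y := by
        rw [hval, sub_smul, one_smul]
        abel
      show b + Matrix.toLin' M y ∈ K5 b \ {x : V | x 0 + x 1 + x 2 ≤ 1}
      rw [e1]
      refine ⟨vola_comb hK hbK heK h0 h1 h2 h3.le, ?_⟩
      show ¬ (((1 - (y 0 + y 1 + y 2)) • b + y) 0 + ((1 - (y 0 + y 1 + y 2)) • b + y) 1 +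
        ((1 - (y 0 + y 1 + y 2)) • b + y) 2 ≤ 1)
      simp only [Pi.add_apply, Pi.smul_apply, smul_eq_mul]
      push Not
      have h4 : 0 < (1 - (y 0 + y 1 + y 2)) * u := mul_pos (by linarith) h
      rw [hu] at h4
      nlinarith

end Pool.Agent.H96.BP
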