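import Pool.Agent.H96.BP.Stm
import Pool.Graph.R_pool_sql_team_seeded_63374d34.N707.CN.VOL

/-!
# `S_VOLB`: the volume of a union of three tetrahedra (helper350, for helper96)
-/

set_option autoImplicit false

namespace Pool.Agent.H96.BP

open MeasureTheory

/-- the open unit simplex (up to a null set) -/
def volb_T : Set V := {y | y ∈ Pool.Agent.N707.CNVOL.T ∧ ∀ m, 0 < y m}

theorem volb_vol : volume volb_T = ENNReal.ofReal (1 / 6) := by
  have h1 : volb_T = Pool.Agent.N707.CNVOL.T \ ⋃ m : Fin 3, {y : V | y m = 0} := by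
    ext y
    simp only [volb_T, Set.mem_ofPred_eq, Set.mem_sdiff, Set.mem_iUnion, not_exists]
    constructor
    · rintro ⟨h1, h2⟩
      exact ⟨h1, fun m => (h2 m).ne'⟩
    · rintro ⟨h1, h2⟩
      exact ⟨h1, fun m => lt_of_le_of_ne (h1.1 m) (Ne.symm (h2 m))⟩
  rw [h1, measure_sdiff_null, Pool.Agent.N707.CNVOL.vol_T]
  rw [measure_iUnion_null_iff]
  intro m
  exact Measure.pi_hyperplane (fun _ : Fin 3 => (volume : Measure ℝ)) m 0

theorem volb_piece {K : Set V} (hK : Convex ℝ K) (h0 : (0 : V) ∈ K) (z : Fin 3 → V)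
    (hz : ∀ m, z m ∈ K) (R : Set V) (hR : ∀ y : V, (∀ m, 0 < y m) → ∑ m, y m • z m ∈ R) :
    ENNReal.ofReal (|(Matrix.of fun i j : Fin 3 => z j i).det| / 6) ≤ volume (K ∩ R) := by
  set M : Matrix (Fin 3) (Fin 3) ℝ := Matrix.of fun i j : Fin 3 => z j i with hM
  have hval : ∀ y : V, Matrix.toLin' M y = ∑ m, y m • z m := by
    intro y
    rw [Matrix.toLin'_apply]
    ext k
    rw [Matrix.mulVec, dotProduct, Finset.sum_apply]
    apply Finset.sum_congr rfl
    intro m _
    rw [hM, Matrix.of_apply, Pi.smul_apply, smul_eq_mul, mul_comm]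
  have hvol : volume (Matrix.toLin' M '' volb_T) = ENNReal.ofReal (|M.det| / 6) := by
    rw [Measure.addHaar_image_linearMap, LinearMap.det_toLin', volb_vol,
      ← ENNReal.ofReal_mul (abs_nonneg _)]
    congr 1
    ring
  rw [← hvol]
  apply measure_mono
  rintro x ⟨y, ⟨hy, hyn⟩, rfl⟩
  rw [hval]
  exact ⟨Pool.Agent.N707.CNVOL.comb_mem hK h0 z hz hy, hR y hyn⟩

theorem t_volb : S_VOLB := by
  intro r s q hr hs _ _
  set b : V := ![-r, -s, q] with hb
  set K : Set V := K5 b with hKdef
  have hK : Convex ℝ K := convex_convexHull ℝ _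
  have hsub : insert b (insert 0 (Set.range fun n : Fin 3 => (Pi.single n 1 : V))) ⊆ K :=
    subset_convexHull ℝ _
  have hbK : b ∈ K := hsub (Set.mem_insert _ _)
  have h0K : (0 : V) ∈ K := hsub (Set.mem_insert_of_mem _ (Set.mem_insert _ _))
  have heK : ∀ n : Fin 3, (Pi.single n 1 : V) ∈ K := fun n =>
    hsub (Set.mem_insert_of_mem _ (Set.mem_insert_of_mem _ ⟨n, rfl⟩))
  set t0 : Set V := {x | 0 ≤ x 0} ∩ {x | 0 ≤ x 1} with ht0
  set t1 : Set V := {x | x 0 < 0} ∩ {x | s * x 0 ≤ r * x 1} with ht1
  set t2 : Set V := {x | x 1 < 0} ∩ {x | r * x 1 < s * x 0} with ht2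
  have hm0 : MeasurableSet t0 :=
    (measurableSet_le measurable_const (measurable_pi_apply 0)).inter
      (measurableSet_le measurable_const (measurable_pi_apply 1))
  have hc0 : Measurable fun x : V => s * x 0 := by fun_prop
  have hc1 : Measurable fun x : V => r * x 1 := by fun_prop
  have hm1 : MeasurableSet t1 :=
    (measurableSet_lt (measurable_pi_apply 0) measurable_const).inter (measurableSet_le hc0 hc1)
  have hp0 : ENNReal.ofReal (1 / 6) ≤ volume (K ∩ t0) := by
    have h := volb_piece hK h0K (fun n => (Pi.single n 1 : V)) heK t0 (by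
      intro y hy
      simp only [ht0, Set.mem_inter_iff, Set.mem_ofPred_eq, Fin.sum_univ_three, Pi.add_apply,
        Pi.smul_apply, smul_eq_mul]
      simp
      exact ⟨(hy 0).le, (hy 1).le⟩)
    have hdet : (Matrix.of fun i j : Fin 3 => (Pi.single j 1 : V) i).det = 1 := by
      rw [Matrix.det_fin_three]
      simp
    rw [hdet, abs_one] at h
    exact h
  have hp1 : ENNReal.ofReal (r / 6) ≤ volume (K ∩ t1) := by
    rcases eq_or_lt_of_le hr with h | h
    · rw [← h, zero_div, ENNReal.ofReal_zero]
      exact zero_le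
    · have h1 := volb_piece hK h0K ![b, Pi.single 1 1, Pi.single 2 1] (by
        intro m
        fin_cases m
        · exact hbK
        · exact heK 1
        · exact heK 2) t1 (by
        intro y hy
        have := hy 0
        have := hy 1
        simp only [ht1, hb, Set.mem_inter_iff, Set.mem_ofPred_eq, Fin.sum_univ_three, Pi.add_apply,
          Pi.smul_apply, smul_eq_mul]
        simp
        constructor
        · positivity
        · nlinarith [mul_pos h (hy 1)])
      have hdet : (Matrix.of fun i j : Fin 3 =>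
          (![b, Pi.single 1 1, Pi.single 2 1] : Fin 3 → V) j i).det = -r := by
        rw [Matrix.det_fin_three]
        simp [hb]
      rw [hdet, abs_neg, abs_of_pos h] at h1
      exact h1
  have hp2 : ENNReal.ofReal (s / 6) ≤ volume (K ∩ t2) := by
    rcases eq_or_lt_of_le hs with h | h
    · rw [← h, zero_div, ENNReal.ofReal_zero]
      exact zero_le
    · have h1 := volb_piece hK h0K ![Pi.single 0 1, b, Pi.single 2 1] (by
        intro m
        fin_cases m
        · exact heK 0
        · exact hbK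
        · exact heK 2) t2 (by
        intro y hy
        have := hy 0
        have := hy 1
        simp only [ht2, hb, Set.mem_inter_iff, Set.mem_ofPred_eq, Fin.sum_univ_three, Pi.add_apply,
          Pi.smul_apply, smul_eq_mul]
        simp
        constructor
        · positivity
        · nlinarith [mul_pos h (hy 0)])
      have hdet : (Matrix.of fun i j : Fin 3 =>
          (![Pi.single 0 1, b, Pi.single 2 1] : Fin 3 → V) j i).det = -s := by
        rw [Matrix.det_fin_three]
        simp [hb]
      rw [hdet, abs_neg, abs_of_pos h] at h1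
      exact h1
  have hs1 : K ∩ t1 ⊆ (K \ t0) ∩ t1 := by
    rintro x ⟨hx, hx1⟩
    refine ⟨⟨hx, fun h => ?_⟩, hx1⟩
    have e1 : x 0 < 0 := hx1.1
    have e2 : 0 ≤ x 0 := h.1
    linarith
  have hs2 : K ∩ t2 ⊆ (K \ t0) \ t1 := by
    rintro x ⟨hx, hx2⟩
    refine ⟨⟨hx, fun h => ?_⟩, fun h => ?_⟩
    · have e1 : x 1 < 0 := hx2.1
      have e2 : 0 ≤ x 1 := h.2
      linarith
    · have e1 : r * x 1 < s * x 0 := hx2.2
      have e2 : s * x 0 ≤ r * x 1 := h.2
      linarith
  calc ENNReal.ofReal ((1 + r + s) / 6)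
      = ENNReal.ofReal (1 / 6) + (ENNReal.ofReal (r / 6) + ENNReal.ofReal (s / 6)) := by
        rw [← ENNReal.ofReal_add (by positivity) (by positivity),
          ← ENNReal.ofReal_add (by positivity) (by positivity)]
        congr 1
        ring
    _ ≤ volume (K ∩ t0) + (volume (K ∩ t1) + volume (K ∩ t2)) :=
        add_le_add hp0 (add_le_add hp1 hp2)
    _ ≤ volume (K ∩ t0) + (volume ((K \ t0) ∩ t1) + volume ((K \ t0) \ t1)) :=
        add_le_add le_rfl (add_le_add (measure_mono hs1) (measure_mono hs2))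
    _ = volume K := by
        rw [measure_inter_add_sdiff _ hm1, measure_inter_add_sdiff _ hm0]

end Pool.Agent.H96.BP

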