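import Pool.Agent.H96.BP.Stm

/-!
# Project BP, WIDA (helper922): the widths of a bipyramid in seven directions
-/

set_option autoImplicit false

namespace Pool.Agent.H96.BP

lemma wida_bd (b : V) (c : Fin 3 → ℝ) (lo hi : ℝ) (h0 : lo ≤ 0) (h0' : 0 ≤ hi)
    (he : ∀ n, lo ≤ c n ∧ c n ≤ hi)
    (hb : lo ≤ c 0 * b 0 + c 1 * b 1 + c 2 * b 2) (hb' : c 0 * b 0 + c 1 * b 1 + c 2 * b 2 ≤ hi) :
    ∀ p ∈ K5 b, lo ≤ c 0 * p 0 + c 1 * p 1 + c 2 * p 2 ∧ c 0 * p 0 + c 1 * p 1 + c 2 * p 2 ≤ hi := by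
  intro p hp
  have hC : Convex ℝ {p : V | lo ≤ c 0 * p 0 + c 1 * p 1 + c 2 * p 2 ∧
      c 0 * p 0 + c 1 * p 1 + c 2 * p 2 ≤ hi} := by
    intro x hx y hy s t hs ht hst
    obtain ⟨hx1, hx2⟩ := hx
    obtain ⟨hy1, hy2⟩ := hy
    have e : c 0 * (s • x + t • y) 0 + c 1 * (s • x + t • y) 1 + c 2 * (s • x + t • y) 2 =
        s * (c 0 * x 0 + c 1 * x 1 + c 2 * x 2) + t * (c 0 * y 0 + c 1 * y 1 + c 2 * y 2) := by
      simp only [Pi.add_apply, Pi.smul_apply, smul_eq_mul]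
      ring
    have i1 := mul_le_mul_of_nonneg_left hx1 hs
    have i2 := mul_le_mul_of_nonneg_left hy1 ht
    have i3 := mul_le_mul_of_nonneg_left hx2 hs
    have i4 := mul_le_mul_of_nonneg_left hy2 ht
    have e1 : s * lo + t * lo = lo := by rw [← add_mul, hst, one_mul]
    have e2 : s * hi + t * hi = hi := by rw [← add_mul, hst, one_mul]
    refine ⟨?_, ?_⟩
    · rw [e]; linarith
    · rw [e]; linarith
  have hsub : insert b (insert 0 (Set.range fun n : Fin 3 => (Pi.single n 1 : V))) ⊆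
      {p : V | lo ≤ c 0 * p 0 + c 1 * p 1 + c 2 * p 2 ∧
        c 0 * p 0 + c 1 * p 1 + c 2 * p 2 ≤ hi} := by
    rintro q (rfl | rfl | ⟨n, rfl⟩)
    · exact ⟨hb, hb'⟩
    · show lo ≤ c 0 * (0 : V) 0 + c 1 * (0 : V) 1 + c 2 * (0 : V) 2 ∧
        c 0 * (0 : V) 0 + c 1 * (0 : V) 1 + c 2 * (0 : V) 2 ≤ hi
      simp only [Pi.zero_apply, mul_zero, add_zero]
      exact ⟨h0, h0'⟩
    · have h := he n
      fin_cases n <;> simpa [Pi.single_apply] using h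
  exact convexHull_min hsub hC hp

theorem t_wida : S_WIDA := by
  intro b h0 h1 hs1 hs2
  have b0 := h0 0
  have b1 := h0 1
  have b2 := h0 2
  have c0 := h1 0
  have c1 := h1 1
  have c2 := h1 2
  obtain ⟨x0, hx0, hx1, hx2⟩ : ∃ x0 : ℝ, 0 ≤ x0 ∧ b 0 + b 1 - 1 ≤ x0 ∧
      (x0 = 0 ∨ x0 = b 0 + b 1 - 1) :=
    ⟨max 0 (b 0 + b 1 - 1), le_max_left _ _, le_max_right _ _, max_choice _ _⟩
  obtain ⟨y0, hy0, hy1, hy2⟩ : ∃ y0 : ℝ, 0 ≤ y0 ∧ b 0 + b 2 - 1 ≤ y0 ∧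
      (y0 = 0 ∨ y0 = b 0 + b 2 - 1) :=
    ⟨max 0 (b 0 + b 2 - 1), le_max_left _ _, le_max_right _ _, max_choice _ _⟩
  obtain ⟨z0, hz0, hz1, hz2⟩ : ∃ z0 : ℝ, 0 ≤ z0 ∧ b 1 + b 2 - 1 ≤ z0 ∧
      (z0 = 0 ∨ z0 = b 1 + b 2 - 1) :=
    ⟨max 0 (b 1 + b 2 - 1), le_max_left _ _, le_max_right _ _, max_choice _ _⟩
  have hle : x0 + y0 + z0 ≤ b 0 + b 1 + b 2 - 1 := by
    rcases hx2 with h | h <;> rcases hy2 with h' | h' <;> rcases hz2 with h'' | h'' <;> linarith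
  refine ⟨x0 + (b 0 + b 1 + b 2 - 1 - (x0 + y0 + z0)), y0, z0, by linarith, hy0, hz0, by ring, ?_⟩
  intro p hp q hq
  refine ⟨?_, ?_, ?_, ?_, ?_, ?_, ?_⟩
  · have k : ∀ n : Fin 3, (0 : ℝ) ≤ ![1, 0, 0] n ∧ (![1, 0, 0] n : ℝ) ≤ 1 := by
      intro n; fin_cases n <;> simp
    have i := wida_bd b ![1, 0, 0] 0 1 le_rfl (by norm_num) k (by simpa using b0) (by simpa using c0)
    have i1 := (i p hp).2
    have i2 := (i q hq).1
    simp at i1 i2
    linarith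
  · have k : ∀ n : Fin 3, (0 : ℝ) ≤ ![0, 1, 0] n ∧ (![0, 1, 0] n : ℝ) ≤ 1 := by
      intro n; fin_cases n <;> simp
    have i := wida_bd b ![0, 1, 0] 0 1 le_rfl (by norm_num) k (by simpa using b1) (by simpa using c1)
    have i1 := (i p hp).2
    have i2 := (i q hq).1
    simp at i1 i2
    linarith
  · have k : ∀ n : Fin 3, (0 : ℝ) ≤ ![0, 0, 1] n ∧ (![0, 0, 1] n : ℝ) ≤ 1 := by
      intro n; fin_cases n <;> simp
    have i := wida_bd b ![0, 0, 1] 0 1 le_rfl (by norm_num) k (by simpa using b2) (by simpa using c2)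
    have i1 := (i p hp).2
    have i2 := (i q hq).1
    simp at i1 i2
    linarith
  · have k : ∀ n : Fin 3, (0 : ℝ) ≤ ![1, 1, 1] n ∧ (![1, 1, 1] n : ℝ) ≤ b 0 + b 1 + b 2 := by
      intro n; fin_cases n <;> simp <;> linarith
    have i := wida_bd b ![1, 1, 1] 0 (b 0 + b 1 + b 2) le_rfl (by linarith) k
      (by simp; linarith) (by simp)
    have i1 := (i p hp).2
    have i2 := (i q hq).1
    simp at i1 i2
    linarith
  · have k : ∀ n : Fin 3, (0 : ℝ) ≤ ![1, 1, 0] n ∧ (![1, 1, 0] n : ℝ) ≤ 1 + x0 := by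
      intro n; fin_cases n <;> simp <;> linarith
    have i := wida_bd b ![1, 1, 0] 0 (1 + x0) le_rfl (by linarith) k
      (by simp; linarith) (by simp; linarith)
    have i1 := (i p hp).2
    have i2 := (i q hq).1
    simp at i1 i2
    linarith
  · have k : ∀ n : Fin 3, (0 : ℝ) ≤ ![1, 0, 1] n ∧ (![1, 0, 1] n : ℝ) ≤ 1 + y0 := by
      intro n; fin_cases n <;> simp <;> linarith
    have i := wida_bd b ![1, 0, 1] 0 (1 + y0) le_rfl (by linarith) k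
      (by simp; linarith) (by simp; linarith)
    have i1 := (i p hp).2
    have i2 := (i q hq).1
    simp at i1 i2
    linarith
  · have k : ∀ n : Fin 3, (0 : ℝ) ≤ ![0, 1, 1] n ∧ (![0, 1, 1] n : ℝ) ≤ 1 + z0 := by
      intro n; fin_cases n <;> simp <;> linarith
    have i := wida_bd b ![0, 1, 1] 0 (1 + z0) le_rfl (by linarith) k
      (by simp; linarith) (by simp; linarith)
    have i1 := (i p hp).2
    have i2 := (i q hq).1
    simp at i1 i2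
    linarith

end Pool.Agent.H96.BP
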