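import Pool.Agent.H96.BP.Stm

/-!
# BP-WIDB: widths of a second normal form
-/

set_option autoImplicit false

namespace Pool.Agent.H96.BP

/-- the bounds for one functional -/
lemma widb_fun (b : V) (c0 c1 c2 lo hi : ℝ) (h0 : lo ≤ 0) (h0' : 0 ≤ hi) (h1 : lo ≤ c0)
    (h1' : c0 ≤ hi) (h2 : lo ≤ c1) (h2' : c1 ≤ hi) (h3 : lo ≤ c2) (h3' : c2 ≤ hi)
    (hb : lo ≤ c0 * b 0 + c1 * b 1 + c2 * b 2) (hb' : c0 * b 0 + c1 * b 1 + c2 * b 2 ≤ hi) :
    ∀ p ∈ K5 b, lo ≤ c0 * p 0 + c1 * p 1 + c2 * p 2 ∧ c0 * p 0 + c1 * p 1 + c2 * p 2 ≤ hi := by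
  have hconv : Convex ℝ {p : V | lo ≤ c0 * p 0 + c1 * p 1 + c2 * p 2 ∧
      c0 * p 0 + c1 * p 1 + c2 * p 2 ≤ hi} := by
    intro p hp q hq s t hs ht hst
    have e : c0 * (s • p + t • q) 0 + c1 * (s • p + t • q) 1 + c2 * (s • p + t • q) 2 =
        s * (c0 * p 0 + c1 * p 1 + c2 * p 2) + t * (c0 * q 0 + c1 * q 1 + c2 * q 2) := by
      simp only [Pi.add_apply, Pi.smul_apply, smul_eq_mul]
      ring
    constructor
    · rw [e]
      have h4 := mul_le_mul_of_nonneg_left hp.1 hs
      have h5 := mul_le_mul_of_nonneg_left hq.1 ht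
      have h6 : s * lo + t * lo = lo := by rw [← add_mul, hst, one_mul]
      linarith
    · rw [e]
      have h4 := mul_le_mul_of_nonneg_left hp.2 hs
      have h5 := mul_le_mul_of_nonneg_left hq.2 ht
      have h6 : s * hi + t * hi = hi := by rw [← add_mul, hst, one_mul]
      linarith
  have hsub : K5 b ⊆ {p : V | lo ≤ c0 * p 0 + c1 * p 1 + c2 * p 2 ∧
      c0 * p 0 + c1 * p 1 + c2 * p 2 ≤ hi} := by
    refine convexHull_min ?_ hconv
    intro p hp
    rcases Set.mem_insert_iff.1 hp with rfl | hp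
    · exact ⟨hb, hb'⟩
    rcases Set.mem_insert_iff.1 hp with rfl | hp
    · constructor <;> simpa
    obtain ⟨n, rfl⟩ := hp
    fin_cases n
    · constructor <;> simpa
    · constructor <;> simpa
    · constructor <;> simpa
  exact fun p hp => hsub hp

theorem t_widb : S_WIDB := by
  intro r s q hr hs hq hq1 x hx y hy
  set b : V := ![-r, -s, q] with hb
  have b0 : b 0 = -r := rfl
  have b1 : b 1 = -s := rfl
  have b2 : b 2 = q := rfl
  have k0 := widb_fun b 1 0 0 (-r) 1 (by linarith) (by norm_num) (by linarith) (by norm_num)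
    (by linarith) (by norm_num) (by linarith) (by norm_num) (by rw [b0, b1, b2]; linarith)
    (by rw [b0, b1, b2]; linarith)
  have k1 := widb_fun b 0 1 0 (-s) 1 (by linarith) (by norm_num) (by linarith) (by norm_num)
    (by linarith) (by norm_num) (by linarith) (by norm_num) (by rw [b0, b1, b2]; linarith)
    (by rw [b0, b1, b2]; linarith)
  have k2 := widb_fun b 0 0 1 0 1 (by linarith) (by norm_num) (by linarith) (by norm_num)
    (by linarith) (by norm_num) (by linarith) (by norm_num) (by rw [b0, b1, b2]; linarith)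
    (by rw [b0, b1, b2]; linarith)
  have kS := widb_fun b 1 1 1 0 1 (by linarith) (by norm_num) (by linarith) (by norm_num)
    (by linarith) (by norm_num) (by linarith) (by norm_num) (by rw [b0, b1, b2]; linarith)
    (by rw [b0, b1, b2]; linarith)
  have k01 := widb_fun b 1 1 0 (-(r + s)) 1 (by linarith) (by norm_num) (by linarith) (by norm_num)
    (by linarith) (by norm_num) (by linarith) (by norm_num) (by rw [b0, b1, b2]; linarith)
    (by rw [b0, b1, b2]; linarith)
  have k02 := widb_fun b 1 0 1 0 1 (by linarith) (by norm_num) (by linarith) (by norm_num)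
    (by linarith) (by norm_num) (by linarith) (by norm_num) (by rw [b0, b1, b2]; linarith)
    (by rw [b0, b1, b2]; linarith)
  have k12 := widb_fun b 0 1 1 0 1 (by linarith) (by norm_num) (by linarith) (by norm_num)
    (by linarith) (by norm_num) (by linarith) (by norm_num) (by rw [b0, b1, b2]; linarith)
    (by rw [b0, b1, b2]; linarith)
  have l0 := k0 x hx
  have l0' := k0 y hy
  have l1 := k1 x hx
  have l1' := k1 y hy
  have l2 := k2 x hx
  have l2' := k2 y hy
  have lS := kS x hx
  have lS' := kS y hy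
  have l01 := k01 x hx
  have l01' := k01 y hy
  have l02 := k02 x hx
  have l02' := k02 y hy
  have l12 := k12 x hx
  have l12' := k12 y hy
  refine ⟨by linarith [l0.2, l0'.1], by linarith [l1.2, l1'.1], by linarith [l2.2, l2'.1],
    by linarith [lS.2, lS'.1], by linarith [l01.2, l01'.1], by linarith [l02.2, l02'.1],
    by linarith [l12.2, l12'.1]⟩

end Pool.Agent.H96.BP
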